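import Pool.Agent.H46.SB.Hz
import Pool.Agent.H80.NA.Cls

/-!
ROW Vh (MP_b319aa_NA, X8: cutoffs of small energy at the square).
PROOF. `inv_int`: `∫_{a < dist z c0 < R} 1 / dist^2 ≤ 8 log (R / a)`: `ch_cover`, `ch_int`, `ch_dist` (`Pool/Agent/H46/SB/Hf.lean`): the annulus is covered, up to a null set, by the eight images of `Oct a R`, and
`∫_{Oct a R} 1 / x.1^2 = ∫_{w ∈ (0,1)} ∫_a^R s^(-2) s ds = log (R/a)` (`oct_int`, `Pool/Agent/H46/SB/Hc.lean`; the function is bounded on `Oct a R`).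
`cut_small`: `l z = 1 - mu a R (dist z c0)` (`mu_props`, `mu_small` in `Pool/Agent/H46/SB/Hh.lean`, `Hk.lean`). `gr_comp_le` (`Pool/Agent/H46/SB/Hz.lean`) for `g s = 1 - mu a R s`, `g' s = - 1 / log (R/a) / s`, and `ae_dist_ne`: a.e.
`gr l z ≤ indicator (2 / (log (R/a)^2 dist^2))`; so `∫_U gr l ≤ (2 / log^2) 8 log (R/a) = 16 / log (R/a) ≤ e` for `a` small (`mu_small` with the constant `(e/16)^2`). Integrable: `gr_lip_meas` and the bound. `Sy l`: the points of the boundary of `D`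
have distance `≥ 1/4 > R` from `c0`, where `l = 0`.
`cut_any`: `l z = 1 - mu r ((r + 1/4)/2) (dist z c0)`: same properties except for the size of the integral.
-/

set_option autoImplicit false

namespace H46XB

open H50NA H46SB MeasureTheory Set Filter Topology
open H80HM (D U P f1 f2)
open scoped NNReal

theorem Vh_meas (a R : ℝ) :
    MeasurableSet {z : ℝ × ℝ | a < dist z (1 / 4, 1 / 4) ∧ dist z (1 / 4, 1 / 4) < R} := by
  have h : Continuous (fun z : ℝ × ℝ => dist z (1 / 4, 1 / 4)) := continuous_id.dist continuous_const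
  exact ((isOpen_lt continuous_const h).inter (isOpen_lt h continuous_const)).measurableSet

theorem Vh_oct_meas (a b : ℝ) : MeasurableSet (Oct a b) := by
  have h : IsOpen (Oct a b) := by
    unfold Oct
    exact (isOpen_lt continuous_const continuous_fst).inter
      ((isOpen_lt continuous_fst continuous_const).inter
        ((isOpen_lt continuous_const continuous_snd).inter (isOpen_lt continuous_snd continuous_fst)))
  exact h.measurableSet

theorem inv_int {a R : ℝ} (ha : 0 < a) (haR : a < R) :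
    IntegrableOn (fun z : ℝ × ℝ => 1 / dist z (1 / 4, 1 / 4) ^ 2)
      {z : ℝ × ℝ | a < dist z (1 / 4, 1 / 4) ∧ dist z (1 / 4, 1 / 4) < R} ∧
    ∫ z in {z : ℝ × ℝ | a < dist z (1 / 4, 1 / 4) ∧ dist z (1 / 4, 1 / 4) < R},
      1 / dist z (1 / 4, 1 / 4) ^ 2 ≤ 8 * Real.log (R / a) := by
  have hA := Vh_meas a R
  set c0 : ℝ × ℝ := (1 / 4, 1 / 4) with hc0
  set A : Set (ℝ × ℝ) := {z : ℝ × ℝ | a < dist z c0 ∧ dist z c0 < R} with hAdef
  set f : ℝ × ℝ → ℝ := fun z => 1 / dist z c0 ^ 2 with hf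
  have hf0 : ∀ z, 0 ≤ f z := fun z => by rw [hf]; positivity
  have hd : Continuous (fun z : ℝ × ℝ => dist z c0) := continuous_id.dist continuous_const
  have hfm : Measurable f := (measurable_const.div (hd.measurable.pow_const 2))
  have hAfin : volume A ≠ ⊤ := by
    have h1 : A ⊆ Metric.ball c0 R := fun z hz => hz.2
    exact ((measure_mono h1).trans_lt measure_ball_lt_top).ne
  have hint : IntegrableOn f A := by
    refine Measure.integrableOn_of_bounded (M := 1 / a ^ 2) hAfin hfm.aestronglyMeasurable ?_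
    filter_upwards [ae_restrict_mem hA] with z hz
    rw [Real.norm_of_nonneg (hf0 z)]
    have h1 : a < dist z c0 := hz.1
    rw [hf]
    have h2 : a ^ 2 ≤ dist z c0 ^ 2 := by gcongr
    exact one_div_le_one_div_of_le (by positivity) h2
  refine ⟨hint, ?_⟩
  obtain ⟨Z, hZ, hcov⟩ := ch_cover c0 a R
  set S : Bool × Bool × Bool → Set (ℝ × ℝ) := fun i => ch c0 i '' Oct a R with hSdef
  have hSm : ∀ i, MeasurableSet (S i) := fun i => (Hf_emb c0 i).measurableSet_image.2 (Vh_oct_meas a R)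
  have hSA : ∀ i, S i ⊆ A := by
    rintro i _ ⟨x, hx, rfl⟩
    have h1 := ch_dist c0 i x hx.2.2.1 hx.2.2.2
    exact ⟨by rw [h1]; exact hx.1, by rw [h1]; exact hx.2.1⟩
  have hSint : ∀ i, IntegrableOn f (S i) := fun i => hint.mono_set (hSA i)
  have hval : ∀ i, ∫ z in S i, f z = Real.log (R / a) := by
    intro i
    have h1 : EqOn (fun x => f (ch c0 i x)) (fun x => 1 / x.1 ^ 2) (Oct a R) := by
      intro x hx
      simp only [hf]
      rw [ch_dist c0 i x hx.2.2.1 hx.2.2.2]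
    have h2 : IntegrableOn (fun x : ℝ × ℝ => 1 / x.1 ^ 2) (Oct a R) :=
      ((ch_intOn c0 i (Oct a R) f).1 (hSint i)).congr_fun h1 (Vh_oct_meas a R)
    have h3 : ∫ s in Ioo a R, 1 / s ^ 2 * s = Real.log (R / a) := by
      have h4 : EqOn (fun s : ℝ => 1 / s ^ 2 * s) (fun s => s⁻¹) (Ioo a R) := by
        intro s hs
        have : s ≠ 0 := (ha.trans hs.1).ne'
        simp only
        field_simp
      rw [setIntegral_congr_fun measurableSet_Ioo h4, ← integral_Ioc_eq_integral_Ioo,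
        ← intervalIntegral.integral_of_le haR.le, integral_inv_of_pos ha (ha.trans haR)]
    rw [hSdef]
    simp only
    rw [ch_int c0 i (Oct a R) f, setIntegral_congr_fun (Vh_oct_meas a R) h1, oct_int ha.le h2]
    simp only
    rw [h3]
    simp
  have hle : ∫ z in A, f z ≤ ∑ i : Bool × Bool × Bool, ∫ z in S i, f z := by
    have e1 : ∀ i, ∫ z in S i, f z = ∫ z in A, (S i).indicator f z := by
      intro i
      rw [integral_indicator (hSm i), Measure.restrict_restrict (hSm i),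
        inter_eq_self_of_subset_left (hSA i)]
    have e2 : ∀ i, IntegrableOn ((S i).indicator f) A := by
      intro i
      rw [IntegrableOn, integrable_indicator_iff (hSm i), IntegrableOn, Measure.restrict_restrict (hSm i),
        inter_eq_self_of_subset_left (hSA i)]
      exact hSint i
    rw [Finset.sum_congr rfl fun i _ => e1 i, ← integral_finsetSum _ fun i _ => e2 i]
    refine integral_mono_ae hint (integrable_finsetSum _ fun i _ => e2 i) ?_
    have hZae : ∀ᵐ z ∂(volume : Measure (ℝ × ℝ)), z ∉ Z := by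
      rw [ae_iff]
      simpa using hZ
    filter_upwards [ae_restrict_mem hA, ae_restrict_of_ae hZae] with z hz hzZ
    obtain ⟨i, hi⟩ := hcov z hzZ hz.1 hz.2
    have hi' : z ∈ S i := hi
    calc f z = (S i).indicator f z := (indicator_of_mem hi' f).symm
      _ ≤ ∑ i, (S i).indicator f z :=
        Finset.single_le_sum (f := fun i => (S i).indicator f z)
          (fun i _ => indicator_nonneg (fun z _ => hf0 z) z) (Finset.mem_univ i)
  refine hle.trans (le_of_eq ?_)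
  rw [Finset.sum_congr rfl fun i _ => hval i, Finset.sum_const, nsmul_eq_mul]
  congr 1

theorem Vh_cut {a R : ℝ} (ha : 0 < a) (haR : a < R) (hR4 : R < 1 / 4) :
    (∃ K : ℝ≥0, LipschitzWith K (fun z : ℝ × ℝ => 1 - mu a R (dist z (1 / 4, 1 / 4)))) ∧
      (∀ z : ℝ × ℝ, 0 ≤ 1 - mu a R (dist z (1 / 4, 1 / 4)) ∧ 1 - mu a R (dist z (1 / 4, 1 / 4)) ≤ 1) ∧
      (∀ z : ℝ × ℝ, dist z (1 / 4, 1 / 4) ≤ a → 1 - mu a R (dist z (1 / 4, 1 / 4)) = 1) ∧
      (∀ z : ℝ × ℝ, R ≤ dist z (1 / 4, 1 / 4) → 1 - mu a R (dist z (1 / 4, 1 / 4)) = 0) ∧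
      Sy (fun z : ℝ × ℝ => 1 - mu a R (dist z (1 / 4, 1 / 4))) ∧
      IntegrableOn (gr (fun z : ℝ × ℝ => 1 - mu a R (dist z (1 / 4, 1 / 4)))) U ∧
      ∫ z in U, gr (fun z : ℝ × ℝ => 1 - mu a R (dist z (1 / 4, 1 / 4))) z ≤
        2 * (1 / Real.log (R / a)) ^ 2 * (8 * Real.log (R / a)) := by
  obtain ⟨⟨K, hK⟩, h01, hl0, hl1, hder⟩ := mu_props ha haR
  obtain ⟨hi1, hi2⟩ := inv_int ha haR
  set c0 : ℝ × ℝ := (1 / 4, 1 / 4) with hc0
  have hgK : LipschitzWith K (fun s => 1 - mu a R s) := by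
    refine LipschitzWith.of_dist_le_mul fun x y => ?_
    have h1 := hK.dist_le_mul x y
    rw [Real.dist_eq] at h1 ⊢
    have h2 : 1 - mu a R x - (1 - mu a R y) = -(mu a R x - mu a R y) := by ring
    rw [h2, abs_neg]
    exact h1
  have hlip : LipschitzWith K (fun z : ℝ × ℝ => 1 - mu a R (dist z c0)) := by
    have h2 := hgK.comp (LipschitzWith.dist_left c0)
    rw [mul_one] at h2
    exact h2
  have hzero : ∀ z : ℝ × ℝ, R ≤ dist z c0 → 1 - mu a R (dist z c0) = 0 := fun z hz => by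
    rw [hl1 _ hz, sub_self]
  have hfst : ∀ z : ℝ × ℝ, 1 / 4 ≤ |z.1 - 1 / 4| → 1 - mu a R (dist z c0) = 0 := fun z hz => by
    apply hzero
    rw [Prod.dist_eq, Real.dist_eq, Real.dist_eq]
    exact hR4.le.trans (hz.trans (le_max_left _ _))
  have hsnd : ∀ z : ℝ × ℝ, 1 / 4 ≤ |z.2 - 1 / 4| → 1 - mu a R (dist z c0) = 0 := fun z hz => by
    apply hzero
    rw [Prod.dist_eq, Real.dist_eq, Real.dist_eq]
    exact hR4.le.trans (hz.trans (le_max_right _ _))
  have n0 : (1 : ℝ) / 4 ≤ |(0 : ℝ) - 1 / 4| := by norm_num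
  have n1 : (1 : ℝ) / 4 ≤ |(1 : ℝ) - 1 / 4| := by norm_num
  have n2 : (1 : ℝ) / 4 ≤ |(1 / 2 : ℝ) - 1 / 4| := by norm_num
  have hcut := cut_int (g := fun s => 1 - mu a R s) (g' := fun s => -(1 / Real.log (R / a) / s)) (a := a) (b := R)
    (p := c0) (K := K) ha haR hgK
    (const_left (v := 1) fun x hx => by show 1 - mu a R x = 1; rw [hl0 _ hx, sub_zero])
    (const_right (v := 0) fun x hx => by show 1 - mu a R x = 0; rw [hl1 _ hx, sub_self])
    (fun s hs1 hs2 => by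
      have := (hder s hs1 hs2).const_sub 1
      exact this) U_meas (q := fun _ => 1) aestronglyMeasurable_const (w := fun x => 1 / dist x c0 ^ 2)
    (c := 2 * (1 / Real.log (R / a)) ^ 2)
    (fun x hx1 hx2 => by
      apply le_of_eq
      rw [one_pow, mul_one, neg_sq, div_pow]
      ring) (hi1.mono_set inter_subset_right)
  simp only [one_pow, mul_one] at hcut
  refine ⟨⟨K, hlip⟩, fun z => ⟨by have := (h01 (dist z c0)).2; linarith, by have := (h01 (dist z c0)).1; linarith⟩,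
    fun z hz => by rw [hl0 _ hz, sub_zero], hzero, ⟨fun v _ => ?_, fun u _ => ?_, fun u _ => ?_⟩, hcut.1, ?_⟩
  · exact (hfst (1, v) n1).trans (hfst (0, v) n0).symm
  · exact (hsnd (1 - u, 0) n0).trans (hsnd (u, 0) n0).symm
  · exact (hsnd (1 - u, 1 / 2) n2).trans (hsnd (u, 1 / 2) n2).symm
  · refine hcut.2.trans ?_
    refine mul_le_mul_of_nonneg_left ?_ (by positivity)
    refine le_trans ?_ hi2
    refine setIntegral_mono_set hi1 (Eventually.of_forall fun z => ?_) ?_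
    · show 0 ≤ 1 / dist z c0 ^ 2
      positivity
    · exact (inter_subset_right : U ∩ {x : ℝ × ℝ | a < dist x c0 ∧ dist x c0 < R} ⊆ _).eventuallyLE

theorem cut_small {R e : ℝ} (hR : 0 < R) (hR4 : R < 1 / 4) (he : 0 < e) :
    ∃ a : ℝ, 0 < a ∧ a < R ∧ ∃ l : ℝ × ℝ → ℝ, (∃ K : ℝ≥0, LipschitzWith K l) ∧ (∀ z, 0 ≤ l z ∧ l z ≤ 1) ∧
      (∀ z, dist z (1 / 4, 1 / 4) ≤ a → l z = 1) ∧ (∀ z, R ≤ dist z (1 / 4, 1 / 4) → l z = 0) ∧ Sy l ∧
      IntegrableOn (fun z => sp l (1, 0) z ^ 2 + sp l (0, 1) z ^ 2) U ∧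
      ∫ z in U, (sp l (1, 0) z ^ 2 + sp l (0, 1) z ^ 2) ≤ e := by
  obtain ⟨a, ha, haR, hc, hlog⟩ := mu_small (R := R) (e := (e / 16) ^ 2) hR (by positivity)
  obtain ⟨h1, h2, h3, h4, h5, h6, h7⟩ := Vh_cut ha haR hR4
  refine ⟨a, ha, haR, fun z : ℝ × ℝ => 1 - mu a R (dist z (1 / 4, 1 / 4)), h1, h2, h3, h4, h5, h6, ?_⟩
  refine h7.trans ?_
  have h8 : 1 / Real.log (R / a) ≤ e / 16 := by
    have h9 : 0 ≤ 1 / Real.log (R / a) := by positivity
    exact (pow_le_pow_iff_left₀ h9 (by positivity) two_ne_zero).1 hc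
  have h10 : 2 * (1 / Real.log (R / a)) ^ 2 * (8 * Real.log (R / a)) = 16 * (1 / Real.log (R / a)) := by
    field_simp
    ring
  rw [h10]
  linarith

theorem cut_any {r : ℝ} (hr : 0 < r) (hr4 : r < 1 / 4) :
    ∃ R : ℝ, r < R ∧ R < 1 / 4 ∧ ∃ l : ℝ × ℝ → ℝ, (∃ K : ℝ≥0, LipschitzWith K l) ∧ (∀ z, 0 ≤ l z ∧ l z ≤ 1) ∧
      (∀ z, dist z (1 / 4, 1 / 4) ≤ r → l z = 1) ∧ (∀ z, R ≤ dist z (1 / 4, 1 / 4) → l z = 0) ∧ Sy l ∧
      IntegrableOn (fun z => sp l (1, 0) z ^ 2 + sp l (0, 1) z ^ 2) U := by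
  obtain ⟨h1, h2, h3, h4, h5, h6, h7⟩ := Vh_cut (a := r) (R := (r + 1 / 4) / 2) hr (by linarith) (by linarith)
  exact ⟨(r + 1 / 4) / 2, by linarith, by linarith,
    fun z : ℝ × ℝ => 1 - mu r ((r + 1 / 4) / 2) (dist z (1 / 4, 1 / 4)), h1, h2, h3, h4, h5, h6⟩

end H46XB
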