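import Pool.Agent.H46.XB.Vc
import Pool.Agent.H46.XB.Vh
import Pool.Agent.H98.NX.Ej

/-!
ROW Vj (MP_b319aa_NA, X8: cutting off a map of the class Clx to a map of the class Cl0).
PROOF. `cl_cut`: `h z = gm (f z) o (l z)`, `= ip gm f (fun _ => o) l`. `lip`: `lpo_gm` (`lpo_const`). `glu`: at the points of the sides of `D` (distance `≥ 1/4 > R` from `c0`) `l = 0` and `h = f` (`hX.zero`). Energy: for a.e. `z ∈ U` (`ip_good`) `sp_crude` with the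
constant map (`sp_const`): `sp h t z ≤ (1 - l z) sp f t z + |fderiv l z t| dist (f z) o ≤ sp f t z + M |fderiv l z t|` (if `dist z c0 > R`, `l = 0` near `z`, so `fderiv l z = 0`; the sphere `dist z c0 = R` is covered by `hM` and `≤`). With `t = f1 x y, f2 x y` and
`(a + b)^2 ≤ (1 + δ) a^2 + (1 + 1/δ) b^2`: `e2 x y h ≤ (1 + δ) e2 x y f + (1 + 1/δ) M^2 ((fderiv l z f1)^2 + (fderiv l z f2)^2)`, and the last bracket is `≤ kap' x y ((fderiv l z (1,0))^2 + (fderiv l z (0,1))^2)` (`f1 = √y (1,0)`, `f2 = -(x/√y)(1,0) + (1/√y)(0,1)`), `= kap' x y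
(sp l (1,0)^2 + sp l (0,1)^2)` (`sp_real`, `lpo_diff`). `fin`: the same with `t = (1,0), (0,1)` and `δ = 1`. Integrate (`e2_int`).
`cl0_of_cl`: `cut_any`, `M` = bound of `dist (f z) o` on the compact `closedBall c0 R ⊆ D \ P` (`f` is Lipschitz there); `h = o` on `Zr r` since `l = 1` (`hX.one`).
-/

set_option autoImplicit false

namespace H46XB

open H50NA H98NX MeasureTheory Set Filter Topology
open H80HM (D U P f1 f2)
open scoped NNReal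

variable {X : Type} [MetricSpace X] {gm : X → X → ℝ → X} {A B C : X ≃ᵢ X}

theorem Vj_ball {R : ℝ} (hR4 : R < 1 / 4) : Metric.closedBall ((1 / 4, 1 / 4) : ℝ × ℝ) R ⊆ D \ P :=
  (Zr_sub hR4).trans U_sub

theorem cl_bdd {f : ℝ × ℝ → X} (hf : Clx A B C f) (o : X) {R : ℝ} (hR4 : R < 1 / 4) :
    ∃ M : ℝ, 0 ≤ M ∧ ∀ z, dist z (1 / 4, 1 / 4) ≤ R → dist (f z) o ≤ M := by
  have hC : IsCompact (Metric.closedBall ((1 / 4, 1 / 4) : ℝ × ℝ) R) := isCompact_closedBall _ _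
  obtain ⟨M, hM0, hM⟩ := Ea_bd (lpo_dist hf.lip (lpo_const o (D \ P))) (Vj_ball hR4) hC
  exact ⟨M, hM0, fun z hz => (le_abs_self _).trans (hM z (Metric.mem_closedBall.2 hz))⟩

theorem Vj_lpo {l : ℝ × ℝ → ℝ} (hl : ∃ K : ℝ≥0, LipschitzWith K l) (S : Set (ℝ × ℝ)) : Lpo l S := by
  obtain ⟨K, hK⟩ := hl
  refine lpo_lip (K := K) (fun x y => ?_) S
  rw [← Real.dist_eq]
  exact hK.dist_le_mul x y

theorem Vj_sq {a b s δ c : ℝ} (hδ : 0 < δ) (hs0 : 0 ≤ s) (hs : s ≤ a + b) (hb : b ^ 2 ≤ c) :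
    s ^ 2 ≤ (1 + δ) * a ^ 2 + (1 + 1 / δ) * c := by
  have h1 : s ^ 2 ≤ (a + b) ^ 2 := pow_le_pow_left₀ hs0 hs 2
  have h2 : 0 ≤ (δ * a - b) ^ 2 / δ := div_nonneg (sq_nonneg _) hδ.le
  have h3 : (δ * a - b) ^ 2 / δ = δ * a ^ 2 - 2 * a * b + 1 / δ * b ^ 2 := by
    field_simp
    ring
  have h4 : (1 + 1 / δ) * b ^ 2 ≤ (1 + 1 / δ) * c :=
    mul_le_mul_of_nonneg_left hb (by positivity)
  rw [h3] at h2
  nlinarith [h1, h2, h4]

theorem Vj_pt (hX : Npc X gm) {f : ℝ × ℝ → X} (hf : Lpo f U) {o : X} {R M : ℝ}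
    (hM : ∀ z, dist z (1 / 4, 1 / 4) ≤ R → dist (f z) o ≤ M) {l : ℝ × ℝ → ℝ} (hl : ∃ K : ℝ≥0, LipschitzWith K l)
    (h01 : ∀ z, 0 ≤ l z ∧ l z ≤ 1) (h0 : ∀ z, R ≤ dist z (1 / 4, 1 / 4) → l z = 0) {δ : ℝ} (hδ : 0 < δ) :
    ∀ᵐ z ∂(volume : Measure (ℝ × ℝ)), z ∈ U → DifferentiableAt ℝ l z ∧ ∀ t : ℝ × ℝ,
      sp (ip gm f (fun _ => o) l) t z ^ 2 ≤ (1 + δ) * sp f t z ^ 2 + (1 + 1 / δ) * (M ^ 2 * (fderiv ℝ l z t) ^ 2) := by
  filter_upwards [ip_good (volume : Measure (ℝ × ℝ)) hX U_open hf (lpo_const o U) (Vj_lpo hl U)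
    (fun z _ => h01 z)] with z hz hzU
  obtain ⟨g1, g2, g3, -, g5, g6⟩ := hz hzU
  refine ⟨g6, fun t => ?_⟩
  have hc := sp_crude hX g1 g2 g3 g6 (Eventually.of_forall h01) g5.continuousAt t
  rw [sp_const, mul_zero, add_zero] at hc
  have ha : 0 ≤ sp f t z := sp_nonneg f t z
  have hs : sp (ip gm f (fun _ => o) l) t z ≤ sp f t z + |fderiv ℝ l z t| * dd f (fun _ => o) z := by
    have h2 : (1 - l z) * sp f t z ≤ sp f t z := mul_le_of_le_one_left ha (by linarith [(h01 z).1])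
    linarith
  refine Vj_sq hδ (sp_nonneg _ t z) hs ?_
  rw [mul_pow, sq_abs, mul_comm (M ^ 2)]
  rcases le_or_gt (dist z (1 / 4, 1 / 4)) R with h | h
  · refine mul_le_mul_of_nonneg_left ?_ (sq_nonneg _)
    exact pow_le_pow_left₀ dist_nonneg (hM z h) 2
  · have h3 : l =ᶠ[𝓝 z] fun _ => (0 : ℝ) := by
      have h4 : {w : ℝ × ℝ | R < dist w (1 / 4, 1 / 4)} ∈ 𝓝 z :=
        (isOpen_lt continuous_const (continuous_id.dist continuous_const)).mem_nhds h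
      filter_upwards [h4] with w hw
      exact h0 w (le_of_lt hw)
    have h5 : fderiv ℝ l z = 0 := by
      rw [h3.fderiv_eq]
      exact fderiv_const_apply (0 : ℝ)
    rw [h5]
    simp

theorem Vj_fd (L : ℝ × ℝ →L[ℝ] ℝ) (x : ℝ) {y : ℝ} (hy : 0 < y) :
    L (f1 x y) ^ 2 + L (f2 x y) ^ 2 ≤ kap' x y * (L (1, 0) ^ 2 + L (0, 1) ^ 2) := by
  have hr : Real.sqrt y ^ 2 = y := Real.sq_sqrt hy.le
  have hr0 : 0 < Real.sqrt y := Real.sqrt_pos.2 hy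
  have g1 : f1 x y = Real.sqrt y • ((1, 0) : ℝ × ℝ) := by
    unfold f1
    ext <;> simp
  have g2 : f2 x y = (-x / Real.sqrt y) • ((1, 0) : ℝ × ℝ) + (1 / Real.sqrt y) • ((0, 1) : ℝ × ℝ) := by
    unfold f2
    ext <;> simp
  rw [g1, g2, map_add, map_smul, map_smul, map_smul, smul_eq_mul, smul_eq_mul, smul_eq_mul]
  generalize L (1, 0) = u
  generalize L (0, 1) = v
  have h1 : (Real.sqrt y * u) ^ 2 = y * u ^ 2 := by rw [mul_pow, hr]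
  have h2 : (-x / Real.sqrt y * u + 1 / Real.sqrt y * v) ^ 2 ≤
      2 * (-x / Real.sqrt y * u) ^ 2 + 2 * (1 / Real.sqrt y * v) ^ 2 := by
    nlinarith [sq_nonneg (-x / Real.sqrt y * u - 1 / Real.sqrt y * v)]
  have h3 : 2 * (-x / Real.sqrt y * u) ^ 2 + 2 * (1 / Real.sqrt y * v) ^ 2 = 2 * x ^ 2 / y * u ^ 2 + 2 / y * v ^ 2 := by
    rw [mul_pow, mul_pow, div_pow, div_pow, hr]
    ring
  rw [h3] at h2
  rw [h1]
  have e8 : kap' x y * (u ^ 2 + v ^ 2) = (y * u ^ 2 + (2 * x ^ 2 / y * u ^ 2 + 2 / y * v ^ 2)) +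
      (2 / y * u ^ 2 + y * v ^ 2 + 2 * x ^ 2 / y * v ^ 2) := by
    unfold kap'
    ring
  rw [e8]
  have e9 : 0 ≤ 2 / y * u ^ 2 + y * v ^ 2 + 2 * x ^ 2 / y * v ^ 2 := by positivity
  linarith

theorem Vj_fin (hX : Npc X gm) {f h : ℝ × ℝ → X} {l : ℝ × ℝ → ℝ} {M : ℝ} (hh : Lpo h U)
    (hff : IntegrableOn (fun x => sp f (1, 0) x ^ 2 + sp f (0, 1) x ^ 2) U)
    (hi : IntegrableOn (fun z => sp l (1, 0) z ^ 2 + sp l (0, 1) z ^ 2) U)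
    (hp : ∀ᵐ z ∂(volume : Measure (ℝ × ℝ)), z ∈ U → DifferentiableAt ℝ l z ∧ ∀ t : ℝ × ℝ,
      sp h t z ^ 2 ≤ (1 + 1) * sp f t z ^ 2 + (1 + 1 / 1) * (M ^ 2 * (fderiv ℝ l z t) ^ 2)) :
    IntegrableOn (fun z => sp h (1, 0) z ^ 2 + sp h (0, 1) z ^ 2) U := by
  have hU : MeasurableSet (U : Set (ℝ × ℝ)) := U_open.measurableSet
  have hg : IntegrableOn (fun z => 2 * (sp f (1, 0) z ^ 2 + sp f (0, 1) z ^ 2) +
      2 * M ^ 2 * (sp l (1, 0) z ^ 2 + sp l (0, 1) z ^ 2)) U := (hff.const_mul _).add (hi.const_mul _)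
  refine Integrable.mono' hg ?_ ?_
  · have hm : ∀ t : ℝ × ℝ, Measurable (U.indicator (sp h t)) := fun t => sp_meas U_open (lpo_cont U_open hh) t
    refine (((hm (1, 0)).pow_const 2).add ((hm (0, 1)).pow_const 2)).aestronglyMeasurable.congr ?_
    filter_upwards [ae_restrict_mem hU] with z hz
    show (U.indicator (sp h (1, 0)) z) ^ 2 + (U.indicator (sp h (0, 1)) z) ^ 2 = _
    rw [indicator_of_mem hz, indicator_of_mem hz]
  · rw [ae_restrict_iff' hU]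
    filter_upwards [hp] with z hz hzU
    obtain ⟨hd, ht⟩ := hz hzU
    rw [Real.norm_of_nonneg (add_nonneg (sq_nonneg _) (sq_nonneg _)), sp_real hd, sp_real hd, sq_abs, sq_abs]
    have h1 := ht (1, 0)
    have h2 := ht (0, 1)
    norm_num at h1 h2
    linarith

theorem Vj_int (hX : Npc X gm) {f h : ℝ × ℝ → X} {l : ℝ × ℝ → ℝ} {M : ℝ} (hh : Lpo h U) (hf : Lpo f U)
    (hfh : IntegrableOn (fun x => sp h (1, 0) x ^ 2 + sp h (0, 1) x ^ 2) U)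
    (hff : IntegrableOn (fun x => sp f (1, 0) x ^ 2 + sp f (0, 1) x ^ 2) U)
    (hi : IntegrableOn (fun z => sp l (1, 0) z ^ 2 + sp l (0, 1) z ^ 2) U) {δ : ℝ} (hδ : 0 < δ) (x : ℝ) {y : ℝ}
    (hy : 0 < y)
    (hp : ∀ᵐ z ∂(volume : Measure (ℝ × ℝ)), z ∈ U → DifferentiableAt ℝ l z ∧ ∀ t : ℝ × ℝ,
      sp h t z ^ 2 ≤ (1 + δ) * sp f t z ^ 2 + (1 + 1 / δ) * (M ^ 2 * (fderiv ℝ l z t) ^ 2)) :
    Ex x y h ≤ (1 + δ) * Ex x y f +
        (1 + 1 / δ) * M ^ 2 * kap' x y * ∫ z in U, (sp l (1, 0) z ^ 2 + sp l (0, 1) z ^ 2) := by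
  have i1 := e2_int hX hh hfh x y
  have i2 := e2_int hX hf hff x y
  have e : (1 + δ) * Ex x y f + (1 + 1 / δ) * M ^ 2 * kap' x y * ∫ z in U, (sp l (1, 0) z ^ 2 + sp l (0, 1) z ^ 2) =
      ∫ z in U, ((1 + δ) * e2 x y f z + (1 + 1 / δ) * M ^ 2 * kap' x y * (sp l (1, 0) z ^ 2 + sp l (0, 1) z ^ 2)) := by
    rw [integral_add (i2.const_mul _) (hi.const_mul _), integral_const_mul, integral_const_mul]
    rfl
  rw [e]
  refine integral_mono_ae i1 ((i2.const_mul _).add (hi.const_mul _)) ?_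
  have h1 := ae_restrict_of_ae (s := U) hp
  filter_upwards [h1, ae_restrict_mem U_open.measurableSet] with z hz hzU
  obtain ⟨hd, ht⟩ := hz hzU
  have q1 := ht (f1 x y)
  have q2 := ht (f2 x y)
  have q3 := Vj_fd (fderiv ℝ l z) x hy
  have q4 : sp l (1, 0) z ^ 2 + sp l (0, 1) z ^ 2 = (fderiv ℝ l z) (1, 0) ^ 2 + (fderiv ℝ l z) (0, 1) ^ 2 := by
    rw [sp_real hd, sp_real hd, sq_abs, sq_abs]
  have q5 : 0 ≤ (1 + 1 / δ) * M ^ 2 := by positivity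
  have q6 := mul_le_mul_of_nonneg_left q3 q5
  show sp h (f1 x y) z ^ 2 + sp h (f2 x y) z ^ 2 ≤ (1 + δ) * (sp f (f1 x y) z ^ 2 + sp f (f2 x y) z ^ 2) +
    (1 + 1 / δ) * M ^ 2 * kap' x y * (sp l (1, 0) z ^ 2 + sp l (0, 1) z ^ 2)
  rw [q4]
  generalize (1 + 1 / δ) = e1 at *
  nlinarith [q1, q2, q6]

theorem Vj_glu (hX : Npc X gm) {f : ℝ × ℝ → X} (hf : Glu A B C f) {o : X} {R : ℝ} (hR4 : R < 1 / 4)
    {l : ℝ × ℝ → ℝ} (h0 : ∀ z, R ≤ dist z (1 / 4, 1 / 4) → l z = 0) :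
    Glu A B C (ip gm f (fun _ => o) l) := by
  have e1 : ∀ z : ℝ × ℝ, (1 / 4 ≤ |z.1 - 1 / 4| ∨ 1 / 4 ≤ |z.2 - 1 / 4|) → ip gm f (fun _ => o) l z = f z := by
    intro z hz
    have h1 : l z = 0 := by
      apply h0
      rw [Prod.dist_eq, Real.dist_eq, Real.dist_eq]
      rcases hz with h | h
      · exact (hR4.le.trans h).trans (le_max_left _ _)
      · exact (hR4.le.trans h).trans (le_max_right _ _)
    show gm (f z) o (l z) = f z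
    rw [h1, hX.zero]
  refine ⟨fun v hv => ?_, fun u hu => ?_, fun u hu => ?_⟩
  · rw [e1 (1, v) (Or.inl (by norm_num [abs_of_pos])), e1 (0, v) (Or.inl (by norm_num [abs_of_neg]))]
    exact hf.glC v hv
  · rw [e1 (1 - u, 0) (Or.inr (by norm_num [abs_of_neg])), e1 (u, 0) (Or.inr (by norm_num [abs_of_neg]))]
    exact hf.glA u hu
  · rw [e1 (1 - u, 1 / 2) (Or.inr (by norm_num [abs_of_pos])), e1 (u, 1 / 2) (Or.inr (by norm_num [abs_of_pos]))]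
    exact hf.glB u hu

theorem cl_cut (hX : Npc X gm) {f : ℝ × ℝ → X} (hf : Clx A B C f) {o : X} {R M : ℝ} (hR4 : R < 1 / 4)
    (hM : ∀ z, dist z (1 / 4, 1 / 4) ≤ R → dist (f z) o ≤ M) {l : ℝ × ℝ → ℝ} (hl : ∃ K : ℝ≥0, LipschitzWith K l)
    (h01 : ∀ z, 0 ≤ l z ∧ l z ≤ 1) (h0 : ∀ z, R ≤ dist z (1 / 4, 1 / 4) → l z = 0)
    (hi : IntegrableOn (fun z => sp l (1, 0) z ^ 2 + sp l (0, 1) z ^ 2) U) {δ : ℝ} (hδ : 0 < δ) (x : ℝ) {y : ℝ}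
    (hy : 0 < y) :
    Clx A B C (fun z => gm (f z) o (l z)) ∧
      Ex x y (fun z => gm (f z) o (l z)) ≤ (1 + δ) * Ex x y f +
        (1 + 1 / δ) * M ^ 2 * kap' x y * ∫ z in U, (sp l (1, 0) z ^ 2 + sp l (0, 1) z ^ 2) := by
  have hfU : Lpo f U := lpo_mono U_sub hf.lip
  have hL : Lpo (ip gm f (fun _ => o) l) (D \ P) :=
    lpo_gm hX hf.lip (lpo_const o _) (Vj_lpo hl _) (fun z _ => h01 z)
  have hLU := lpo_mono U_sub hL
  have hfin := Vj_fin (gm := gm) hX hLU hf.fin hi (Vj_pt hX hfU hM hl h01 h0 one_pos)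
  refine ⟨⟨hL, Vj_glu hX hf.glu hR4 h0, hfin⟩, ?_⟩
  exact Vj_int (gm := gm) hX hLU hfU hfin hf.fin hi hδ x hy (Vj_pt hX hfU hM hl h01 h0 hδ)

theorem cl0_of_cl (hX : Npc X gm) {f : ℝ × ℝ → X} (hf : Clx A B C f) (o : X) {r : ℝ} (hr : 0 < r)
    (hr4 : r < 1 / 4) : ∃ g, Cl0 A B C r o g := by
  obtain ⟨R, hrR, hR4, l, hl, h01, h1, h0, -, hi⟩ := cut_any hr hr4
  obtain ⟨M, -, hM⟩ := cl_bdd hf o hR4
  obtain ⟨hc, -⟩ := cl_cut hX hf hR4 hM hl h01 h0 hi one_pos 0 one_pos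
  refine ⟨_, hc, fun z hz => ?_⟩
  show gm (f z) o (l z) = o
  rw [h1 z (Metric.mem_closedBall.1 hz), hX.one]

end H46XB
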