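import Pool.Agent.H46.XB.Vg
import Pool.Agent.H46.XB.Vj

/-!
ROW Vi (MP_b319aa_NA, X8: the energies with a prescribed square converge to the energy).
PROOF. `E0_lim`: if `Clx` is empty, so is `Cl0` and both sides are `sInf ∅ = 0`. Otherwise `EX ≤ E0 .. r ..` for `0 < r < 1/4` (`EX_le_E0`, `cl0_of_cl`). Given `ep > 0`: `f ∈ Clx` with `Ex x y f ≤ EX + ep` (`ncl_exists`), `M` from `cl_bdd` with `R = 1/8`, `δ > 0` with
`δ (EX + ep) ≤ ep`, `cut_small` with `R = 1/8` and `e` so small that `(1 + 1/δ) M^2 kap' x y e ≤ ep`: `a`, `l`. `h z = gm (f z) o (l z)` is in `Cl0 A B C a o` (`l = 1` on `Zr a`, `hX.one`; `cl_cut`) and `Ex x y h ≤ EX + 3 ep`. For `0 < r ≤ a`: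
`E0 .. r .. ≤ E0 .. a .. ≤ EX + 3 ep` (`E0_mono`, `E0_le`).
`E0_lim_loc`: `E0_cont`, `EX_cont`, `j ↦ E0 .. (rj j) ..` is antitone at every point (`E0_mono`; `Cl0` non empty or everything is `0`), pointwise convergence by `E0_lim`: Dini's theorem (`Mathlib/Topology/UniformSpace/Dini.lean`, or
`AntitoneOn`/`Antitone.tendstoLocallyUniformlyOn_of_forall_tendsto`).
-/

set_option autoImplicit false

namespace H46XB

open H50NA H98NX MeasureTheory Set Filter Topology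
open H80HM (D U P f1 f2)

variable {X : Type} [MetricSpace X] {gm : X → X → ℝ → X} {A B C : X ≃ᵢ X}

private theorem vi_EX_empty (h : ¬ ∃ f, Clx A B C f) (x y : ℝ) : EX A B C x y = 0 := by
  unfold EX
  have : {e | ∃ f, Clx A B C f ∧ e = Ex x y f} = ∅ := by
    ext e
    constructor
    · rintro ⟨f, hf, -⟩
      exact absurd ⟨f, hf⟩ h
    · intro he
      exact absurd he (Set.notMem_empty _)
  rw [this, Real.sInf_empty]

private theorem vi_E0_empty (h : ¬ ∃ f, Clx A B C f) (r : ℝ) (o : X) (x y : ℝ) :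
    E0 A B C r o x y = 0 := by
  unfold E0
  have : {e | ∃ f, Cl0 A B C r o f ∧ e = Ex x y f} = ∅ := by
    ext e
    constructor
    · rintro ⟨f, hf, -⟩
      exact absurd ⟨f, hf.cl⟩ h
    · intro he
      exact absurd he (Set.notMem_empty _)
  rw [this, Real.sInf_empty]

theorem E0_lim (hX : Npc X gm) (o : X) (x : ℝ) {y : ℝ} (hy : 0 < y) :
    Tendsto (fun r : ℝ => E0 A B C r o x y) (𝓝[>] 0) (𝓝 (EX A B C x y)) := by
  by_cases hne : ∃ f, Clx A B C f
  swap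
  · rw [vi_EX_empty hne]
    simp only [vi_E0_empty hne]
    exact tendsto_const_nhds
  rw [Metric.tendsto_nhds]
  intro ε hε
  obtain ⟨ep, hep, hep3⟩ : ∃ ep : ℝ, 0 < ep ∧ 3 * ep < ε := ⟨ε / 4, by positivity, by linarith⟩
  obtain ⟨f, hf, hfe⟩ := ncl_exists hne x y hep
  obtain ⟨M, hM0, hM⟩ := cl_bdd hf o (R := 1 / 8) (by norm_num)
  have hEX := EX_nonneg (A := A) (B := B) (C := C) x y
  have hpos : 0 < EX A B C x y + ep := by linarith
  obtain ⟨δ, hδ, hδe⟩ : ∃ δ : ℝ, 0 < δ ∧ δ * (EX A B C x y + ep) = ep :=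
    ⟨ep / (EX A B C x y + ep), by positivity, div_mul_cancel₀ _ hpos.ne'⟩
  obtain ⟨K, hK⟩ : ∃ K : ℝ, K = (1 + 1 / δ) * M ^ 2 * kap' x y := ⟨_, rfl⟩
  obtain ⟨e, he, hKe⟩ : ∃ e : ℝ, 0 < e ∧ |K| * e ≤ ep := by
    refine ⟨ep / (|K| + 1), by positivity, ?_⟩
    rw [← mul_div_assoc, div_le_iff₀ (by positivity)]
    nlinarith [abs_nonneg K]
  obtain ⟨a, ha, haR, l, hl, h01, hl1, hl0, -, hi, hie⟩ :=
    cut_small (R := 1 / 8) (e := e) (by norm_num) (by norm_num) he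
  obtain ⟨hcl, hEh⟩ := cl_cut hX hf (R := 1 / 8) (by norm_num) hM hl h01 hl0 hi hδ x hy
  have hc0 : Cl0 A B C a o (fun z => gm (f z) o (l z)) := by
    refine ⟨hcl, fun z hz => ?_⟩
    show gm (f z) o (l z) = o
    rw [hl1 z (Metric.mem_closedBall.1 hz), hX.one]
  have hI0 : 0 ≤ ∫ z in U, (sp l (1, 0) z ^ 2 + sp l (0, 1) z ^ 2) :=
    integral_nonneg fun z => by positivity
  have hEh2 : Ex x y (fun z => gm (f z) o (l z)) ≤ EX A B C x y + 3 * ep := by
    rw [← hK] at hEh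
    have h1 : K * ∫ z in U, (sp l (1, 0) z ^ 2 + sp l (0, 1) z ^ 2) ≤ ep := by
      refine le_trans ?_ hKe
      exact mul_le_mul (le_abs_self K) hie hI0 (abs_nonneg K)
    have h2 : (1 + δ) * Ex x y f ≤ EX A B C x y + ep + ep := by
      have h3 : (1 + δ) * Ex x y f ≤ (1 + δ) * (EX A B C x y + ep) :=
        mul_le_mul_of_nonneg_left hfe (by linarith)
      have h4 : (1 + δ) * (EX A B C x y + ep) = EX A B C x y + ep + ep := by
        rw [add_mul, one_mul, hδe]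
      linarith
    linarith
  have hev : ∀ᶠ r in 𝓝[>] (0 : ℝ), r ∈ Ioc (0 : ℝ) a := by
    exact Ioc_mem_nhdsGT ha
  filter_upwards [hev] with r hr
  have hr4 : r < 1 / 4 := by
    have := hr.2
    linarith
  have hlow : EX A B C x y ≤ E0 A B C r o x y :=
    EX_le_E0 (cl0_of_cl hX hf o hr.1 hr4) x y
  have hup : E0 A B C r o x y ≤ EX A B C x y + 3 * ep :=
    ((E0_mono hr.2 ⟨_, hc0⟩ x y).trans (E0_le hc0 x y)).trans hEh2
  rw [Real.dist_eq, abs_of_nonneg (by linarith)]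
  linarith

theorem E0_lim_loc (hX : Npc X gm) (o : X) {rj : ℕ → ℝ} (h0 : ∀ j, 0 < rj j) (h4 : ∀ j, rj j < 1 / 4)
    (ha : Antitone rj) (hl : Tendsto rj atTop (𝓝 0)) :
    TendstoLocallyUniformlyOn (fun (j : ℕ) (p : ℝ × ℝ) => E0 A B C (rj j) o p.1 p.2)
      (fun p : ℝ × ℝ => EX A B C p.1 p.2) atTop {p | 0 < p.2} := by
  refine Antitone.tendstoLocallyUniformlyOn_of_forall_tendsto (fun j => E0_cont hX (rj j) o) ?_
    (EX_cont hX) ?_
  · intro p _ j k hjk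
    show E0 A B C (rj k) o p.1 p.2 ≤ E0 A B C (rj j) o p.1 p.2
    by_cases hne : ∃ f, Clx A B C f
    · obtain ⟨f, hf⟩ := hne
      exact E0_mono (ha hjk) (cl0_of_cl hX hf o (h0 j) (h4 j)) p.1 p.2
    · rw [vi_E0_empty hne, vi_E0_empty hne]
  · intro p hp
    exact (E0_lim hX o p.1 hp).comp
      (tendsto_nhdsWithin_iff.2 ⟨hl, Filter.Eventually.of_forall fun j => h0 j⟩)

end H46XB
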