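import Pool.Agent.H46.XB.Ve

/-!
ROW Vf (MP_b319aa_NA, X3': near-minimisers for two parameters).
-/

set_option autoImplicit false

namespace H46XB

open H50NA H98NX MeasureTheory Set Filter Topology
open H80HM (D U P f1 f2)

variable {X : Type} [MetricSpace X] {gm : X → X → ℝ → X} {A B C : X ≃ᵢ X}

private theorem Vf_sinh {s : ℝ} (hs : 0 ≤ s) : Real.sinh s ≤ s * Real.cosh s := by
  have h1 := Convex.image_sub_le_mul_sub_of_deriv_le (convex_Icc (0 : ℝ) s)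
    (f := Real.sinh) Real.continuous_sinh.continuousOn Real.differentiable_sinh.differentiableOn
    (C := Real.cosh s) (by
      intro x hx
      rw [interior_Icc] at hx
      rw [Real.deriv_sinh, Real.cosh_le_cosh, abs_of_pos hx.1, abs_of_nonneg hs]
      exact hx.2.le) 0 (left_mem_Icc.2 hs) s (right_mem_Icc.2 hs) hs
  rw [Real.sinh_zero, sub_zero, sub_zero] at h1
  linarith

private theorem Vf_ep {f : ℝ × ℝ → X} {r ep : ℝ} {o : X} {x y : ℝ} (hf : Nr A B C r o x y ep f) : 0 ≤ ep := by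
  have h1 := E0_le hf.1 x y
  have h2 := hf.2
  linarith

/-- pointwise inequality -/
private theorem Vf_pt (f g : ℝ × ℝ → X) (t t' z : ℝ × ℝ) (s : ℝ) :
    s * (sp f t z ^ 2 - sp g t z ^ 2 - sp f t' z ^ 2 + sp g t' z ^ 2) ≤
      1 / 4 * (mt f g t z + mt f g t' z) +
        s ^ 2 * (2 * sp f t z ^ 2 + 2 * sp g t z ^ 2 + 2 * sp f t' z ^ 2 + 2 * sp g t' z ^ 2) := by
  have h1 : (sp f t z - sp g t z) ^ 2 ≤ mt f g t z := le_max_left _ _
  have h2 : (sp f t' z - sp g t' z) ^ 2 ≤ mt f g t' z := le_max_left _ _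
  have h3 : 0 ≤ ((sp f t z - sp g t z) / 2 - s * (sp f t z + sp g t z)) ^ 2 := sq_nonneg _
  have h4 : 0 ≤ ((sp f t' z - sp g t' z) / 2 + s * (sp f t' z + sp g t' z)) ^ 2 := sq_nonneg _
  have h5 : 0 ≤ s ^ 2 * (sp f t z - sp g t z) ^ 2 := by positivity
  have h6 : 0 ≤ s ^ 2 * (sp f t' z - sp g t' z) ^ 2 := by positivity
  nlinarith

private theorem Vf_intg {a b c d m n : ℝ × ℝ → ℝ} {s : ℝ} (i1 : IntegrableOn a U) (i2 : IntegrableOn b U)
    (i3 : IntegrableOn c U) (i4 : IntegrableOn d U) (i5 : IntegrableOn m U) (i6 : IntegrableOn n U)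
    (h : ∀ z, s * (a z - b z - c z + d z) ≤
      1 / 4 * (m z + n z) + s ^ 2 * (2 * a z + 2 * b z + 2 * c z + 2 * d z)) :
    s * ((∫ z in U, a z) - (∫ z in U, b z) - (∫ z in U, c z) + (∫ z in U, d z)) ≤
      1 / 4 * (∫ z in U, (m z + n z)) + s ^ 2 * (2 * (∫ z in U, a z) + 2 * (∫ z in U, b z) +
        2 * (∫ z in U, c z) + 2 * (∫ z in U, d z)) := by
  have j1 : IntegrableOn (fun z => s * (a z - b z - c z + d z)) U := (((i1.sub i2).sub i3).add i4).const_mul s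
  have j2 : IntegrableOn (fun z => 1 / 4 * (m z + n z)) U := (i5.add i6).const_mul _
  have j3 : IntegrableOn (fun z => s ^ 2 * (2 * a z + 2 * b z + 2 * c z + 2 * d z)) U :=
    ((((i1.const_mul 2).add (i2.const_mul 2)).add (i3.const_mul 2)).add (i4.const_mul 2)).const_mul _
  have h2 : ∫ z in U, s * (a z - b z - c z + d z) ≤
      ∫ z in U, (1 / 4 * (m z + n z) + s ^ 2 * (2 * a z + 2 * b z + 2 * c z + 2 * d z)) :=
    integral_mono j1 (j2.add j3) h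
  have k1 : IntegrableOn (fun z => a z - b z) U := i1.sub i2
  have k2 : IntegrableOn (fun z => a z - b z - c z) U := k1.sub i3
  have k3 : IntegrableOn (fun z => 2 * a z + 2 * b z) U := (i1.const_mul 2).add (i2.const_mul 2)
  have k4 : IntegrableOn (fun z => 2 * a z + 2 * b z + 2 * c z) U := k3.add (i3.const_mul 2)
  have e1 : ∫ z in U, s * (a z - b z - c z + d z) =
      s * ((∫ z in U, a z) - (∫ z in U, b z) - (∫ z in U, c z) + (∫ z in U, d z)) := by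
    rw [integral_const_mul, integral_add k2 i4, integral_sub k1 i3, integral_sub i1 i2]
  have e2 : ∫ z in U, (1 / 4 * (m z + n z) + s ^ 2 * (2 * a z + 2 * b z + 2 * c z + 2 * d z)) =
      1 / 4 * (∫ z in U, (m z + n z)) + s ^ 2 * (2 * (∫ z in U, a z) + 2 * (∫ z in U, b z) +
        2 * (∫ z in U, c z) + 2 * (∫ z in U, d z)) := by
    rw [integral_add j2 j3, integral_const_mul, integral_const_mul, integral_add k4 (i4.const_mul 2),
      integral_add k3 (i3.const_mul 2), integral_add (i1.const_mul 2) (i2.const_mul 2),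
      integral_const_mul, integral_const_mul, integral_const_mul, integral_const_mul]
  rw [e1, e2] at h2
  exact h2

/-- arithmetic -/
private theorem Vf_arith {s ep Af Bf Ag Bg M : ℝ} (hs0 : 0 ≤ s) (hep0 : 0 ≤ ep)
    (h1 : Real.exp s * Ag + Real.exp (-s) * Bg ≤ Real.exp s * Af + Real.exp (-s) * Bf + ep)
    (hM0 : 0 ≤ M)
    (hp : s * (Af - Ag - Bf + Bg) ≤ 1 / 4 * M + s ^ 2 * (2 * Af + 2 * Ag + 2 * Bf + 2 * Bg))
    (hK0 : 0 ≤ 2 * Af + 2 * Ag + 2 * Bf + 2 * Bg) :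
    (Ag + Bg) - (Af + Bf) ≤ 1 / 4 * M + s ^ 2 * (2 * Af + 2 * Ag + 2 * Bf + 2 * Bg) + ep := by
  have hc1 : 1 ≤ Real.cosh s := Real.one_le_cosh s
  have hsh0 : 0 ≤ Real.sinh s := Real.sinh_nonneg_iff.2 hs0
  have hsh := Vf_sinh hs0
  have e1 : Real.exp s = Real.cosh s + Real.sinh s := (Real.cosh_add_sinh s).symm
  have e2 : Real.exp (-s) = Real.cosh s - Real.sinh s := (Real.cosh_sub_sinh s).symm
  rw [e1, e2] at h1
  have h2 : Real.cosh s * ((Ag + Bg) - (Af + Bf)) ≤ Real.sinh s * (Af - Ag - Bf + Bg) + ep := by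
    linarith
  have hR : 0 ≤ 1 / 4 * M + s ^ 2 * (2 * Af + 2 * Ag + 2 * Bf + 2 * Bg) := by positivity
  have h3 : Real.sinh s * (Af - Ag - Bf + Bg) ≤
      Real.cosh s * (1 / 4 * M + s ^ 2 * (2 * Af + 2 * Ag + 2 * Bf + 2 * Bg)) := by
    rcases le_total 0 (Af - Ag - Bf + Bg) with h | h
    · calc Real.sinh s * (Af - Ag - Bf + Bg) ≤ (s * Real.cosh s) * (Af - Ag - Bf + Bg) :=
            mul_le_mul_of_nonneg_right hsh h
        _ = Real.cosh s * (s * (Af - Ag - Bf + Bg)) := by ring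
        _ ≤ _ := mul_le_mul_of_nonneg_left hp (by linarith)
    · have h4 : Real.sinh s * (Af - Ag - Bf + Bg) ≤ 0 := mul_nonpos_of_nonneg_of_nonpos hsh0 h
      have h5 : 0 ≤ Real.cosh s * (1 / 4 * M + s ^ 2 * (2 * Af + 2 * Ag + 2 * Bf + 2 * Bg)) :=
        mul_nonneg (by linarith) hR
      linarith
  have h6 : Real.cosh s * ((Ag + Bg) - (Af + Bf)) ≤
      Real.cosh s * (1 / 4 * M + s ^ 2 * (2 * Af + 2 * Ag + 2 * Bf + 2 * Bg) + ep) := by
    have h7 : ep ≤ Real.cosh s * ep := le_mul_of_one_le_left hep0 hc1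
    linarith
  exact le_of_mul_le_mul_left h6 (by linarith)

private theorem Vf_arith2 {s ep Af Bf Ag Bg E : ℝ} (hs0 : 0 ≤ s) (hs1 : s ≤ 1) (hE : 0 ≤ E) (hep1 : ep ≤ 1)
    (hf : Af + Bf ≤ E + ep) (hAf : 0 ≤ Af) (hBf : 0 ≤ Bf) (hAg : 0 ≤ Ag)
    (h1 : Real.exp s * Ag + Real.exp (-s) * Bg ≤ Real.exp s * Af + Real.exp (-s) * Bf + ep) :
    2 * Af + 2 * Ag + 2 * Bf + 2 * Bg ≤ 34 * (E + 1) := by
  have he1 : Real.exp s ≤ Real.exp 1 := Real.exp_le_exp.2 hs1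
  have he2 : Real.exp 1 < 2.7182818286 := Real.exp_one_lt_d9
  have he3 : 1 ≤ Real.exp s := Real.one_le_exp hs0
  have he4 : Real.exp (-s) ≤ 1 := Real.exp_le_one_iff.2 (by linarith)
  have he5 : 0 < Real.exp (-s) := Real.exp_pos _
  have he6 : Real.exp s * Real.exp (-s) = 1 := by rw [← Real.exp_add, add_neg_cancel, Real.exp_zero]
  obtain ⟨a, ha⟩ : ∃ a, a = Real.exp s := ⟨_, rfl⟩
  obtain ⟨b, hb⟩ : ∃ b, b = Real.exp (-s) := ⟨_, rfl⟩
  rw [← ha] at he1 he3 he6 h1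
  rw [← hb] at he4 he5 he6 h1
  have ha3 : a ≤ 2.72 := by linarith
  have h2 : b * (Ag + Bg) ≤ a * (Af + Bf) + 1 := by
    have t1 : b * Ag ≤ a * Ag := mul_le_mul_of_nonneg_right (by linarith) hAg
    have t2 : b * Bf ≤ a * Bf := mul_le_mul_of_nonneg_right (by linarith) hBf
    linarith
  have h3 : Ag + Bg ≤ a * (a * (Af + Bf) + 1) := by
    calc Ag + Bg = (a * b) * (Ag + Bg) := by rw [he6, one_mul]
      _ = a * (b * (Ag + Bg)) := by ring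
      _ ≤ _ := mul_le_mul_of_nonneg_left h2 (by linarith)
  have h4 : a * (a * (Af + Bf) + 1) ≤ 2.72 * (2.72 * (E + 1) + 1) := by
    have t1 : a * (Af + Bf) ≤ 2.72 * (E + 1) := mul_le_mul ha3 (by linarith) (by linarith) (by norm_num)
    exact mul_le_mul ha3 (by linarith) (by positivity) (by norm_num)
  linarith

private theorem Vf_lpo {f : ℝ × ℝ → X} (hf : Clx A B C f) : Lpo f U := lpo_mono U_sub hf.lip

theorem near_two (hX : Npc X gm) {f g : ℝ × ℝ → X} {r ep s : ℝ} {o : X} {x0 y0 x1 y1 th : ℝ}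
    (hs0 : 0 ≤ s) (hs1 : s ≤ 1) (hep : ep ≤ s ^ 2) (hep1 : ep ≤ 1)
    (hk : ∀ h : ℝ × ℝ → X, Clx A B C h → Ex x1 y1 h =
      ∫ z in U, (Real.exp s * sp h (fe x0 y0 th) z ^ 2 + Real.exp (-s) * sp h (ff x0 y0 th) z ^ 2))
    (hf : Nr A B C r o x0 y0 ep f) (hg : Nr A B C r o x1 y1 ep g) (th' : ℝ) :
    ∫ z in U, (mt f g (fe x0 y0 th') z + mt f g (ff x0 y0 th') z) ≤ 150 * (E0 A B C r o x0 y0 + 1) * s ^ 2 := by
  have hfC := hf.1.cl
  have hgC := hg.1.cl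
  have hep0 := Vf_ep hf
  have hE := E0_nonneg (A := A) (B := B) (C := C) r o x0 y0
  have hif := sp_all_int hX (Vf_lpo hfC) hfC.fin
  have hig := sp_all_int hX (Vf_lpo hgC) hgC.fin
  -- the bound from the middle
  have hmid : ∀ th'' : ℝ, ∫ z in U, (mt f g (fe x0 y0 th'') z + mt f g (ff x0 y0 th'') z) ≤
      2 * (Ex x0 y0 g - Ex x0 y0 f) + 4 * ep := by
    intro th''
    have h1 := mid_le hX hfC hgC x0 y0 th''
    have h2 := E0_le (cl0_const hX (s := 1 / 2) (by norm_num) (by norm_num) hf.1 hg.1) x0 y0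
    have h3 := hf.2
    linarith
  obtain ⟨Af, hAf⟩ : ∃ a, a = ∫ z in U, sp f (fe x0 y0 th) z ^ 2 := ⟨_, rfl⟩
  obtain ⟨Bf, hBf⟩ : ∃ a, a = ∫ z in U, sp f (ff x0 y0 th) z ^ 2 := ⟨_, rfl⟩
  obtain ⟨Ag, hAg⟩ : ∃ a, a = ∫ z in U, sp g (fe x0 y0 th) z ^ 2 := ⟨_, rfl⟩
  obtain ⟨Bg, hBg⟩ : ∃ a, a = ∫ z in U, sp g (ff x0 y0 th) z ^ 2 := ⟨_, rfl⟩
  have hAf0 : 0 ≤ Af := by rw [hAf]; exact integral_nonneg fun z => sq_nonneg _
  have hBf0 : 0 ≤ Bf := by rw [hBf]; exact integral_nonneg fun z => sq_nonneg _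
  have hAg0 : 0 ≤ Ag := by rw [hAg]; exact integral_nonneg fun z => sq_nonneg _
  have hBg0 : 0 ≤ Bg := by rw [hBg]; exact integral_nonneg fun z => sq_nonneg _
  have e0f : Ex x0 y0 f = Af + Bf := by
    rw [ex_frame hX (Vf_lpo hfC) x0 y0 th, integral_add (hif _) (hif _), hAf, hBf]
  have e0g : Ex x0 y0 g = Ag + Bg := by
    rw [ex_frame hX (Vf_lpo hgC) x0 y0 th, integral_add (hig _) (hig _), hAg, hBg]
  have e1f : Ex x1 y1 f = Real.exp s * Af + Real.exp (-s) * Bf := by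
    rw [hk f hfC, integral_add ((hif _).const_mul _) ((hif _).const_mul _), integral_const_mul,
      integral_const_mul, hAf, hBf]
  have e1g : Ex x1 y1 g = Real.exp s * Ag + Real.exp (-s) * Bg := by
    rw [hk g hgC, integral_add ((hig _).const_mul _) ((hig _).const_mul _), integral_const_mul,
      integral_const_mul, hAg, hBg]
  obtain ⟨M, hM⟩ : ∃ M, M = ∫ z in U, (mt f g (fe x0 y0 th) z + mt f g (ff x0 y0 th) z) := ⟨_, rfl⟩
  have hM0 : 0 ≤ M := by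
    rw [hM]
    exact integral_nonneg fun z => add_nonneg (mt_nonneg f g _ z) (mt_nonneg f g _ z)
  have hfb : Af + Bf ≤ E0 A B C r o x0 y0 + ep := by
    rw [← e0f]
    exact hf.2
  have h1 : Real.exp s * Ag + Real.exp (-s) * Bg ≤ Real.exp s * Af + Real.exp (-s) * Bf + ep := by
    rw [← e1f, ← e1g]
    exact hg.2.trans (add_le_add_left (E0_le hf.1 x1 y1) ep)
  have hp : s * (Af - Ag - Bf + Bg) ≤ 1 / 4 * M + s ^ 2 * (2 * Af + 2 * Ag + 2 * Bf + 2 * Bg) := by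
    have h2 := Vf_intg (s := s) (hif (fe x0 y0 th)) (hig (fe x0 y0 th)) (hif (ff x0 y0 th)) (hig (ff x0 y0 th))
      (mt_int hX hfC hgC (fe x0 y0 th)) (mt_int hX hfC hgC (ff x0 y0 th))
      (fun z => Vf_pt f g (fe x0 y0 th) (ff x0 y0 th) z s)
    rw [← hAf, ← hAg, ← hBf, ← hBg, ← hM] at h2
    linarith
  have hK := Vf_arith2 hs0 hs1 hE hep1 hfb hAf0 hBf0 hAg0 h1
  have hK0 : 0 ≤ 2 * Af + 2 * Ag + 2 * Bf + 2 * Bg := by positivity
  have hS := Vf_arith hs0 hep0 h1 hM0 hp hK0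
  have hM1 := hmid th
  rw [← hM, e0f, e0g] at hM1
  have hM2 := hmid th'
  rw [e0f, e0g] at hM2
  have hs2 : 0 ≤ s ^ 2 := sq_nonneg s
  have hKs : s ^ 2 * (2 * Af + 2 * Ag + 2 * Bf + 2 * Bg) ≤ s ^ 2 * (34 * (E0 A B C r o x0 y0 + 1)) :=
    mul_le_mul_of_nonneg_left hK hs2
  have hWs : s ^ 2 ≤ s ^ 2 * (E0 A B C r o x0 y0 + 1) := le_mul_of_one_le_right hs2 (by linarith)
  nlinarith

/-- difference of the energies -/
theorem near_two_ex (hX : Npc X gm) {f g : ℝ × ℝ → X} {r ep s : ℝ} {o : X} {x0 y0 x1 y1 th : ℝ}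
    (hs0 : 0 ≤ s) (hs1 : s ≤ 1) (hep : ep ≤ s ^ 2) (hep1 : ep ≤ 1)
    (hk : ∀ h : ℝ × ℝ → X, Clx A B C h → Ex x1 y1 h =
      ∫ z in U, (Real.exp s * sp h (fe x0 y0 th) z ^ 2 + Real.exp (-s) * sp h (ff x0 y0 th) z ^ 2))
    (hf : Nr A B C r o x0 y0 ep f) (hg : Nr A B C r o x1 y1 ep g) :
    Ex x0 y0 g ≤ Ex x0 y0 f + 75 * (E0 A B C r o x0 y0 + 1) * s ^ 2 := by
  have hM := near_two hX hs0 hs1 hep hep1 hk hf hg th
  have hfC := hf.1.cl
  have hgC := hg.1.cl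
  have hep0 := Vf_ep hf
  have hE := E0_nonneg (A := A) (B := B) (C := C) r o x0 y0
  have hif := sp_all_int hX (Vf_lpo hfC) hfC.fin
  have hig := sp_all_int hX (Vf_lpo hgC) hgC.fin
  obtain ⟨Af, hAf⟩ : ∃ a, a = ∫ z in U, sp f (fe x0 y0 th) z ^ 2 := ⟨_, rfl⟩
  obtain ⟨Bf, hBf⟩ : ∃ a, a = ∫ z in U, sp f (ff x0 y0 th) z ^ 2 := ⟨_, rfl⟩
  obtain ⟨Ag, hAg⟩ : ∃ a, a = ∫ z in U, sp g (fe x0 y0 th) z ^ 2 := ⟨_, rfl⟩
  obtain ⟨Bg, hBg⟩ : ∃ a, a = ∫ z in U, sp g (ff x0 y0 th) z ^ 2 := ⟨_, rfl⟩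
  have hAf0 : 0 ≤ Af := by rw [hAf]; exact integral_nonneg fun z => sq_nonneg _
  have hBf0 : 0 ≤ Bf := by rw [hBf]; exact integral_nonneg fun z => sq_nonneg _
  have hAg0 : 0 ≤ Ag := by rw [hAg]; exact integral_nonneg fun z => sq_nonneg _
  have hBg0 : 0 ≤ Bg := by rw [hBg]; exact integral_nonneg fun z => sq_nonneg _
  have e0f : Ex x0 y0 f = Af + Bf := by
    rw [ex_frame hX (Vf_lpo hfC) x0 y0 th, integral_add (hif _) (hif _), hAf, hBf]
  have e0g : Ex x0 y0 g = Ag + Bg := by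
    rw [ex_frame hX (Vf_lpo hgC) x0 y0 th, integral_add (hig _) (hig _), hAg, hBg]
  have e1f : Ex x1 y1 f = Real.exp s * Af + Real.exp (-s) * Bf := by
    rw [hk f hfC, integral_add ((hif _).const_mul _) ((hif _).const_mul _), integral_const_mul,
      integral_const_mul, hAf, hBf]
  have e1g : Ex x1 y1 g = Real.exp s * Ag + Real.exp (-s) * Bg := by
    rw [hk g hgC, integral_add ((hig _).const_mul _) ((hig _).const_mul _), integral_const_mul,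
      integral_const_mul, hAg, hBg]
  obtain ⟨M, hM'⟩ : ∃ M, M = ∫ z in U, (mt f g (fe x0 y0 th) z + mt f g (ff x0 y0 th) z) := ⟨_, rfl⟩
  rw [← hM'] at hM
  have hM0 : 0 ≤ M := by
    rw [hM']
    exact integral_nonneg fun z => add_nonneg (mt_nonneg f g _ z) (mt_nonneg f g _ z)
  have hfb : Af + Bf ≤ E0 A B C r o x0 y0 + ep := by
    rw [← e0f]
    exact hf.2
  have h1 : Real.exp s * Ag + Real.exp (-s) * Bg ≤ Real.exp s * Af + Real.exp (-s) * Bf + ep := by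
    rw [← e1f, ← e1g]
    exact hg.2.trans (add_le_add_left (E0_le hf.1 x1 y1) ep)
  have hp : s * (Af - Ag - Bf + Bg) ≤ 1 / 4 * M + s ^ 2 * (2 * Af + 2 * Ag + 2 * Bf + 2 * Bg) := by
    have h2 := Vf_intg (s := s) (hif (fe x0 y0 th)) (hig (fe x0 y0 th)) (hif (ff x0 y0 th)) (hig (ff x0 y0 th))
      (mt_int hX hfC hgC (fe x0 y0 th)) (mt_int hX hfC hgC (ff x0 y0 th))
      (fun z => Vf_pt f g (fe x0 y0 th) (ff x0 y0 th) z s)
    rw [← hAf, ← hAg, ← hBf, ← hBg, ← hM'] at h2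
    linarith
  have hK := Vf_arith2 hs0 hs1 hE hep1 hfb hAf0 hBf0 hAg0 h1
  have hK0 : 0 ≤ 2 * Af + 2 * Ag + 2 * Bf + 2 * Bg := by positivity
  have hS := Vf_arith hs0 hep0 h1 hM0 hp hK0
  rw [e0f, e0g]
  have hs2 : 0 ≤ s ^ 2 := sq_nonneg s
  have hKs : s ^ 2 * (2 * Af + 2 * Ag + 2 * Bf + 2 * Bg) ≤ s ^ 2 * (34 * (E0 A B C r o x0 y0 + 1)) :=
    mul_le_mul_of_nonneg_left hK hs2
  have hWs : s ^ 2 ≤ s ^ 2 * (E0 A B C r o x0 y0 + 1) := le_mul_of_one_le_right hs2 (by linarith)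
  nlinarith

theorem near_two_sp (hX : Npc X gm) {f g : ℝ × ℝ → X} {r ep s : ℝ} {o : X} {x0 y0 x1 y1 th : ℝ}
    (hs0 : 0 ≤ s) (hs1 : s ≤ 1) (hep : ep ≤ s ^ 2) (hep1 : ep ≤ 1)
    (hk : ∀ h : ℝ × ℝ → X, Clx A B C h → Ex x1 y1 h =
      ∫ z in U, (Real.exp s * sp h (fe x0 y0 th) z ^ 2 + Real.exp (-s) * sp h (ff x0 y0 th) z ^ 2))
    (hf : Nr A B C r o x0 y0 ep f) (hg : Nr A B C r o x1 y1 ep g) (th' : ℝ) :
    ∫ z in U, ((sp f (fe x0 y0 th') z - sp g (fe x0 y0 th') z) ^ 2 +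
      (sp f (ff x0 y0 th') z - sp g (ff x0 y0 th') z) ^ 2) ≤ 150 * (E0 A B C r o x0 y0 + 1) * s ^ 2 := by
  refine le_trans ?_ (near_two hX hs0 hs1 hep hep1 hk hf hg th')
  apply integral_mono_of_nonneg
  · exact Eventually.of_forall fun z => add_nonneg (sq_nonneg _) (sq_nonneg _)
  · exact (mt_int hX hf.1.cl hg.1.cl _).add (mt_int hX hf.1.cl hg.1.cl _)
  · exact Eventually.of_forall fun z => add_le_add (le_max_left _ _) (le_max_left _ _)

theorem near_two_dist (hX : Npc X gm) {f g : ℝ × ℝ → X} {r ep s : ℝ} {o : X} {x0 y0 x1 y1 th : ℝ} (hr : 0 < r)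
    (hr4 : r < 1 / 4) (hy : 0 < y0) (hs0 : 0 ≤ s) (hs1 : s ≤ 1) (hep : ep ≤ s ^ 2) (hep1 : ep ≤ 1)
    (hk : ∀ h : ℝ × ℝ → X, Clx A B C h → Ex x1 y1 h =
      ∫ z in U, (Real.exp s * sp h (fe x0 y0 th) z ^ 2 + Real.exp (-s) * sp h (ff x0 y0 th) z ^ 2))
    (hf : Nr A B C r o x0 y0 ep f) (hg : Nr A B C r o x1 y1 ep g) :
    ∫ z in U, dist (f z) (g z) ^ 2 ≤
      (1 / (2 * r) + 1 / 2) * kap x0 y0 * (150 * (E0 A B C r o x0 y0 + 1)) * s ^ 2 := by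
  have h1 := (dist_le hX hr hr4 hf.1 hg.1 x0 hy).2
  have h2 := near_two hX hs0 hs1 hep hep1 hk hf hg 0
  rw [(frame_zero x0 y0).1, (frame_zero x0 y0).2] at h2
  have h3 : 0 ≤ (1 / (2 * r) + 1 / 2) * kap x0 y0 := by
    unfold kap
    positivity
  calc ∫ z in U, dist (f z) (g z) ^ 2 ≤ _ := h1
    _ ≤ (1 / (2 * r) + 1 / 2) * kap x0 y0 * (150 * (E0 A B C r o x0 y0 + 1) * s ^ 2) :=
      mul_le_mul_of_nonneg_left h2 h3
    _ = _ := by ring

end H46XB
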