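import Pool.Agent.H98.NX.Xd
import Pool.Agent.H98.NX.Ee

/-!
ROW Vb (MP_b319aa_NA, X: frames and the energy density).
Facts from block NX (use only the statements): `md_ae`, `MD`, `sp_pair` (Eh), `sp_meas` (Eb), `lpo_cont` (Ea).
PROOF. For a.e. `z ∈ U` (`md_ae` on the open set `U`) there is a symmetric bilinear form `B` with `sp f t z ^ 2 = B t t`, so `B` is positive semidefinite. `e2_frame`: `fe = c f1 + s f2`, `ff = -s f1 + c f2`, `c^2 + s^2 = 1`.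
`sp_sq_le`: `sp f (a, b) z ^ 2 ≤ 2 a^2 sp f (1,0) z ^2 + 2 b^2 sp f (0,1) z ^2` by `sp_pair` (`|B| ≤ sp (1,0) sp (0,1)`). `sp_all_int`: measurable (`sp_meas`: the indicator of `U` of `sp f t` is measurable) and bounded by an integrable function.
`e2_cmp`: first: `(1,0) = (1/√y) f1`, `(0,1) = √y f2 + (x/√y) f1`; `B (a u + b v) (a u + b v) ≤ 2 a^2 B u u + 2 b^2 B v v` (positive semidefinite); second: `f1 = √y (1,0)`, `f2 = -(x/√y) (1,0) + (1/√y) (0,1)`.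
`fd_cmp`: the same computation for a linear form `L` (with `(a + b)^2 ≤ 2 a^2 + 2 b^2`). `ex_frame`: integrate `e2_frame`. `e2_int`: `sp_all_int` twice.
-/

set_option autoImplicit false

namespace H46XB

open H50NA H98NX MeasureTheory Set Filter Topology
open H80HM (D U P f1 f2)

variable {X : Type} [MetricSpace X] {gm : X → X → ℝ → X}

/-- comparison constant -/
noncomputable def kap (x y : ℝ) : ℝ := 1 / y + 2 * y + 2 * x ^ 2 / y

/-- comparison constant -/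
noncomputable def kap' (x y : ℝ) : ℝ := y + 2 * x ^ 2 / y + 2 / y

theorem Vb_open : IsOpen U := isOpen_Ioo.prod isOpen_Ioo

theorem Vb_pair (hX : Npc X gm) {f : ℝ × ℝ → X} (hf : Lpo f U) :
    ∀ᵐ z ∂(volume : Measure (ℝ × ℝ)), z ∈ U → ∃ B : ℝ, |B| ≤ sp f (1, 0) z * sp f (0, 1) z ∧
      ∀ a b : ℝ, sp f (a, b) z ^ 2 = a ^ 2 * sp f (1, 0) z ^ 2 + 2 * a * b * B + b ^ 2 * sp f (0, 1) z ^ 2 := by
  filter_upwards [md_ae (volume : Measure (ℝ × ℝ)) hX Vb_open hf] with z hz hzU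
  exact sp_pair (hz hzU)

theorem e2_frame (hX : Npc X gm) {f : ℝ × ℝ → X} (hf : Lpo f U) (x y th : ℝ) :
    ∀ᵐ z ∂(volume : Measure (ℝ × ℝ)), z ∈ U → sp f (fe x y th) z ^ 2 + sp f (ff x y th) z ^ 2 = e2 x y f z := by
  filter_upwards [Vb_pair hX hf] with z hz hzU
  obtain ⟨B, -, hB⟩ := hz hzU
  have h1 : fe x y th = (Real.cos th * Real.sqrt y + Real.sin th * (-x / Real.sqrt y),
      Real.sin th * (1 / Real.sqrt y)) := by
    simp [fe, f1, f2]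
  have h2 : ff x y th = (-Real.sin th * Real.sqrt y + Real.cos th * (-x / Real.sqrt y),
      Real.cos th * (1 / Real.sqrt y)) := by
    simp [ff, f1, f2]
  have h3 : e2 x y f z = sp f (Real.sqrt y, 0) z ^ 2 + sp f (-x / Real.sqrt y, 1 / Real.sqrt y) z ^ 2 := rfl
  rw [h1, h2, h3, hB (Real.cos th * Real.sqrt y + Real.sin th * (-x / Real.sqrt y)) (Real.sin th * (1 / Real.sqrt y)),
    hB (-Real.sin th * Real.sqrt y + Real.cos th * (-x / Real.sqrt y)) (Real.cos th * (1 / Real.sqrt y)),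
    hB (Real.sqrt y) 0, hB (-x / Real.sqrt y) (1 / Real.sqrt y)]
  generalize Real.sqrt y = a
  generalize -x / a = b
  generalize (1 / a : ℝ) = d
  have hcs : Real.cos th ^ 2 + Real.sin th ^ 2 = 1 := Real.cos_sq_add_sin_sq th
  generalize Real.cos th = c at hcs
  generalize Real.sin th = s at hcs
  generalize sp f (1, 0) z ^ 2 = p
  generalize sp f (0, 1) z ^ 2 = q
  linear_combination (a ^ 2 * p + b ^ 2 * p + 2 * b * d * B + d ^ 2 * q) * hcs

theorem sp_sq_le (hX : Npc X gm) {f : ℝ × ℝ → X} (hf : Lpo f U) :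
    ∀ᵐ z ∂(volume : Measure (ℝ × ℝ)), z ∈ U → ∀ t : ℝ × ℝ, sp f t z ^ 2 ≤ 2 * t.1 ^ 2 * sp f (1, 0) z ^ 2 + 2 * t.2 ^ 2 * sp f (0, 1) z ^ 2 := by
  filter_upwards [Vb_pair hX hf] with z hz hzU t
  obtain ⟨B, hB0, hB⟩ := hz hzU
  obtain ⟨a, b⟩ := t
  rw [hB]
  show a ^ 2 * sp f (1, 0) z ^ 2 + 2 * a * b * B + b ^ 2 * sp f (0, 1) z ^ 2 ≤
    2 * a ^ 2 * sp f (1, 0) z ^ 2 + 2 * b ^ 2 * sp f (0, 1) z ^ 2
  have h1 : a * b * B ≤ |a| * |b| * (sp f (1, 0) z * sp f (0, 1) z) := by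
    calc a * b * B ≤ |a * b * B| := le_abs_self _
      _ = |a| * |b| * |B| := by rw [abs_mul, abs_mul]
      _ ≤ |a| * |b| * (sp f (1, 0) z * sp f (0, 1) z) :=
        mul_le_mul_of_nonneg_left hB0 (by positivity)
  have h2 : 0 ≤ (|a| * sp f (1, 0) z - |b| * sp f (0, 1) z) ^ 2 := sq_nonneg _
  have h3 : (|a| * sp f (1, 0) z - |b| * sp f (0, 1) z) ^ 2 =
      |a| ^ 2 * sp f (1, 0) z ^ 2 - 2 * (|a| * |b| * (sp f (1, 0) z * sp f (0, 1) z)) +
      |b| ^ 2 * sp f (0, 1) z ^ 2 := by ring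
  rw [h3, sq_abs, sq_abs] at h2
  linarith

theorem sp_all_int (hX : Npc X gm) {f : ℝ × ℝ → X} (hf : Lpo f U)
    (hi : IntegrableOn (fun x => sp f (1, 0) x ^ 2 + sp f (0, 1) x ^ 2) U) (t : ℝ × ℝ) :
    IntegrableOn (fun z => sp f t z ^ 2) U := by
  have hU : MeasurableSet (U : Set (ℝ × ℝ)) := Vb_open.measurableSet
  have hg : IntegrableOn (fun z => (2 * t.1 ^ 2 + 2 * t.2 ^ 2) * (sp f (1, 0) z ^ 2 + sp f (0, 1) z ^ 2)) U :=
    hi.const_mul _
  refine Integrable.mono' hg ?_ ?_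
  · have hm : Measurable (U.indicator (sp f t)) := sp_meas Vb_open (lpo_cont Vb_open hf) t
    refine (hm.pow_const 2).aestronglyMeasurable.congr ?_
    filter_upwards [ae_restrict_mem hU] with z hz
    rw [indicator_of_mem hz]
  · rw [ae_restrict_iff' hU]
    filter_upwards [sp_sq_le hX hf] with z hz hzU
    rw [Real.norm_of_nonneg (sq_nonneg _)]
    refine (hz hzU t).trans ?_
    have h1 : 0 ≤ sp f (1, 0) z ^ 2 := sq_nonneg _
    have h2 : 0 ≤ sp f (0, 1) z ^ 2 := sq_nonneg _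
    have h3 : 0 ≤ t.1 ^ 2 := sq_nonneg _
    have h4 : 0 ≤ t.2 ^ 2 := sq_nonneg _
    have h5 := mul_nonneg h3 h2
    have h6 := mul_nonneg h4 h1
    linarith

theorem e2_cmp (hX : Npc X gm) {f : ℝ × ℝ → X} (hf : Lpo f U) (x : ℝ) {y : ℝ} (hy : 0 < y) :
    ∀ᵐ z ∂(volume : Measure (ℝ × ℝ)), z ∈ U →
      sp f (1, 0) z ^ 2 + sp f (0, 1) z ^ 2 ≤ kap x y * e2 x y f z ∧
      e2 x y f z ≤ kap' x y * (sp f (1, 0) z ^ 2 + sp f (0, 1) z ^ 2) := by
  filter_upwards [Vb_pair hX hf, sp_sq_le hX hf] with z hz hle hzU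
  obtain ⟨B, -, hB⟩ := hz hzU
  have hr : Real.sqrt y ^ 2 = y := Real.sq_sqrt hy.le
  have hr0 : 0 < Real.sqrt y := Real.sqrt_pos.2 hy
  have e1 : sp f (f1 x y) z ^ 2 = y * sp f (1, 0) z ^ 2 := by
    show sp f (Real.sqrt y, 0) z ^ 2 = _
    rw [hB, hr]
    ring
  have e3 : y * sp f (f2 x y) z ^ 2 = x ^ 2 * sp f (1, 0) z ^ 2 - 2 * x * B + sp f (0, 1) z ^ 2 := by
    show y * sp f (-x / Real.sqrt y, 1 / Real.sqrt y) z ^ 2 = _
    rw [hB]
    have h1 : (-x / Real.sqrt y) ^ 2 = x ^ 2 / y := by rw [div_pow, hr, neg_sq]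
    have h2 : (1 / Real.sqrt y) ^ 2 = 1 / y := by rw [div_pow, hr, one_pow]
    have h3 : 2 * (-x / Real.sqrt y) * (1 / Real.sqrt y) * B = -(2 * x * B / y) := by
      have h4 : 2 * (-x / Real.sqrt y) * (1 / Real.sqrt y) * B = -(2 * x * B / Real.sqrt y ^ 2) := by
        field_simp
      rw [h4, hr]
    rw [h1, h2, h3]
    field_simp
    ring
  have e4 : e2 x y f z = sp f (f1 x y) z ^ 2 + sp f (f2 x y) z ^ 2 := rfl
  have n1 : 0 ≤ sp f (f1 x y) z ^ 2 := sq_nonneg _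
  have n2 : 0 ≤ sp f (f2 x y) z ^ 2 := sq_nonneg _
  have n3 : 0 ≤ sp f (-2 * x, 1) z ^ 2 := sq_nonneg _
  rw [hB] at n3
  have n4 := hle hzU (f2 x y)
  have h1 : (f2 x y).1 ^ 2 = x ^ 2 / y := by
    show (-x / Real.sqrt y) ^ 2 = x ^ 2 / y
    rw [div_pow, hr, neg_sq]
  have h2 : (f2 x y).2 ^ 2 = 1 / y := by
    show (1 / Real.sqrt y) ^ 2 = 1 / y
    rw [div_pow, hr, one_pow]
  rw [h1, h2] at n4
  rw [e4]
  generalize sp f (f2 x y) z ^ 2 = qv at *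
  generalize sp f (f1 x y) z ^ 2 = qu at *
  have n5 : 0 ≤ sp f (1, 0) z ^ 2 := sq_nonneg _
  have n6 : 0 ≤ sp f (0, 1) z ^ 2 := sq_nonneg _
  generalize sp f (1, 0) z ^ 2 = p at *
  generalize sp f (0, 1) z ^ 2 = q at *
  constructor
  · have e5 : p = qu / y := by
      rw [e1]
      field_simp
    have e6 : q ≤ 2 * y * qv + 2 * x ^ 2 / y * qu := by
      have e7 : 2 * x ^ 2 / y * qu = 2 * x ^ 2 * p := by
        rw [e1]
        field_simp
      rw [e7]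
      nlinarith [e3, n3]
    have e8 : kap x y * (qu + qv) = (qu / y + (2 * y * qv + 2 * x ^ 2 / y * qu)) +
        (1 / y * qv + 2 * y * qu + 2 * x ^ 2 / y * qv) := by
      unfold kap
      ring
    rw [e8]
    have e9 : 0 ≤ 1 / y * qv + 2 * y * qu + 2 * x ^ 2 / y * qv := by positivity
    rw [← e5]
    linarith
  · have e8 : kap' x y * (p + q) = (y * p + (2 * (x ^ 2 / y) * p + 2 * (1 / y) * q)) +
        (y * q + 2 * x ^ 2 / y * q + 2 / y * p) := by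
      unfold kap'
      ring
    rw [e8]
    have e9 : 0 ≤ y * q + 2 * x ^ 2 / y * q + 2 / y * p := by positivity
    linarith

theorem fd_cmp (L : ℝ × ℝ →L[ℝ] ℝ) (x : ℝ) {y : ℝ} (hy : 0 < y) :
    L (1, 0) ^ 2 + L (0, 1) ^ 2 ≤ kap x y * (L (f1 x y) ^ 2 + L (f2 x y) ^ 2) := by
  have hr : Real.sqrt y ^ 2 = y := Real.sq_sqrt hy.le
  have hr0 : 0 < Real.sqrt y := Real.sqrt_pos.2 hy
  have g1 : ((1, 0) : ℝ × ℝ) = (1 / Real.sqrt y) • f1 x y := by
    unfold f1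
    ext
    · simp [hr0.ne']
    · simp
  have g2 : ((0, 1) : ℝ × ℝ) = Real.sqrt y • f2 x y + (x / Real.sqrt y) • f1 x y := by
    unfold f1 f2
    ext
    · simp only [Prod.smul_mk, smul_eq_mul, Prod.mk_add_mk]
      field_simp
      ring
    · simp only [Prod.smul_mk, smul_eq_mul, Prod.mk_add_mk]
      field_simp
      ring
  rw [g1, g2, map_add, map_smul, map_smul, map_smul, smul_eq_mul, smul_eq_mul, smul_eq_mul]
  generalize L (f1 x y) = u
  generalize L (f2 x y) = v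
  have h1 : (1 / Real.sqrt y * u) ^ 2 = 1 / y * u ^ 2 := by
    rw [mul_pow, div_pow, hr, one_pow]
  have h2 : (Real.sqrt y * v + x / Real.sqrt y * u) ^ 2 ≤
      2 * (Real.sqrt y * v) ^ 2 + 2 * (x / Real.sqrt y * u) ^ 2 := by
    nlinarith [sq_nonneg (Real.sqrt y * v - x / Real.sqrt y * u)]
  have h3 : 2 * (Real.sqrt y * v) ^ 2 + 2 * (x / Real.sqrt y * u) ^ 2 = 2 * y * v ^ 2 + 2 * x ^ 2 / y * u ^ 2 := by
    rw [mul_pow, mul_pow, div_pow, hr]
    ring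
  rw [h3] at h2
  rw [h1]
  have e8 : kap x y * (u ^ 2 + v ^ 2) = (1 / y * u ^ 2 + (2 * y * v ^ 2 + 2 * x ^ 2 / y * u ^ 2)) +
      (1 / y * v ^ 2 + 2 * y * u ^ 2 + 2 * x ^ 2 / y * v ^ 2) := by
    unfold kap
    ring
  rw [e8]
  have e9 : 0 ≤ 1 / y * v ^ 2 + 2 * y * u ^ 2 + 2 * x ^ 2 / y * v ^ 2 := by positivity
  linarith

theorem e2_int (hX : Npc X gm) {f : ℝ × ℝ → X} (hf : Lpo f U)
    (hi : IntegrableOn (fun x => sp f (1, 0) x ^ 2 + sp f (0, 1) x ^ 2) U) (x y : ℝ) :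
    IntegrableOn (e2 x y f) U := by
  have h1 := sp_all_int hX hf hi (f1 x y)
  have h2 := sp_all_int hX hf hi (f2 x y)
  exact h1.add h2

theorem ex_frame (hX : Npc X gm) {f : ℝ × ℝ → X} (hf : Lpo f U) (x y th : ℝ) :
    Ex x y f = ∫ z in U, (sp f (fe x y th) z ^ 2 + sp f (ff x y th) z ^ 2) := by
  unfold Ex
  refine setIntegral_congr_ae Vb_open.measurableSet ?_
  filter_upwards [e2_frame hX hf x y th] with z hz hzU
  exact (hz hzU).symm

end H46XB
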