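import Pool.Agent.H46.XB.Va
import Pool.Agent.H46.XB.Vb

/-!
ROW Vc (MP_b319aa_NA, X: elementary facts on the energies and their infima).
PROOF. `ex_nonneg`: integral of a nonnegative function. The sets `{e | ∃ f, Clx .. f ∧ e = Ex x y f}` are bounded below by `0`, so `EX ≤ Ex x y f` and `E0 ≤ Ex x y f` (`csInf_le`), `EX, E0 ≥ 0` (`Real.sInf_nonneg`),
`EX ≤ E0` if some `Cl0` exists (`le_csInf`), near-minimisers exist (`exists_lt_of_csInf_lt`), and `E0` is monotone in `r` (`Zr r ⊆ Zr r'`). `grd_le`: from `e2_cmp` and `e2_int`: `∫_U (sp (1,0)^2 + sp (0,1)^2) ≤ kap x y * Ex x y f`.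
-/

set_option autoImplicit false

namespace H46XB

open H50NA H98NX MeasureTheory Set Filter Topology
open H80HM (D U P f1 f2)

variable {X : Type} [MetricSpace X] {gm : X → X → ℝ → X} {A B C : X ≃ᵢ X}

theorem ex_nonneg (x y : ℝ) (f : ℝ × ℝ → X) : 0 ≤ Ex x y f := by
  unfold Ex
  exact integral_nonneg fun z => add_nonneg (sq_nonneg _) (sq_nonneg _)

theorem EX_nonneg (x y : ℝ) : 0 ≤ EX A B C x y := by
  refine Real.sInf_nonneg ?_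
  rintro _ ⟨f, _, rfl⟩
  exact ex_nonneg x y f

theorem E0_nonneg (r : ℝ) (o : X) (x y : ℝ) : 0 ≤ E0 A B C r o x y := by
  refine Real.sInf_nonneg ?_
  rintro _ ⟨f, _, rfl⟩
  exact ex_nonneg x y f

theorem EX_le {f : ℝ × ℝ → X} (hf : Clx A B C f) (x y : ℝ) : EX A B C x y ≤ Ex x y f := by
  refine csInf_le ⟨0, ?_⟩ ⟨f, hf, rfl⟩
  rintro _ ⟨g, _, rfl⟩
  exact ex_nonneg x y g

theorem E0_le {f : ℝ × ℝ → X} {r : ℝ} {o : X} (hf : Cl0 A B C r o f) (x y : ℝ) : E0 A B C r o x y ≤ Ex x y f := by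
  refine csInf_le ⟨0, ?_⟩ ⟨f, hf, rfl⟩
  rintro _ ⟨g, _, rfl⟩
  exact ex_nonneg x y g

theorem nr_exists {r : ℝ} {o : X} (h : ∃ f, Cl0 A B C r o f) (x y : ℝ) {ep : ℝ} (hep : 0 < ep) :
    ∃ f, Nr A B C r o x y ep f := by
  obtain ⟨f0, h0⟩ := h
  have hne : {e | ∃ f, Cl0 A B C r o f ∧ e = Ex x y f}.Nonempty := ⟨_, f0, h0, rfl⟩
  have hlt : sInf {e | ∃ f, Cl0 A B C r o f ∧ e = Ex x y f} < E0 A B C r o x y + ep :=
    lt_add_of_pos_right _ hep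
  obtain ⟨_, ⟨f, hf, rfl⟩, h2⟩ := exists_lt_of_csInf_lt hne hlt
  exact ⟨f, hf, h2.le⟩

theorem ncl_exists (h : ∃ f, Clx A B C f) (x y : ℝ) {ep : ℝ} (hep : 0 < ep) :
    ∃ f, Clx A B C f ∧ Ex x y f ≤ EX A B C x y + ep := by
  obtain ⟨f0, h0⟩ := h
  have hne : {e | ∃ f, Clx A B C f ∧ e = Ex x y f}.Nonempty := ⟨_, f0, h0, rfl⟩
  have hlt : sInf {e | ∃ f, Clx A B C f ∧ e = Ex x y f} < EX A B C x y + ep :=
    lt_add_of_pos_right _ hep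
  obtain ⟨_, ⟨f, hf, rfl⟩, h2⟩ := exists_lt_of_csInf_lt hne hlt
  exact ⟨f, hf, h2.le⟩

theorem EX_le_E0 {r : ℝ} {o : X} (h : ∃ f, Cl0 A B C r o f) (x y : ℝ) : EX A B C x y ≤ E0 A B C r o x y := by
  obtain ⟨f0, h0⟩ := h
  refine le_csInf ⟨_, f0, h0, rfl⟩ ?_
  rintro _ ⟨f, hf, rfl⟩
  exact EX_le hf.cl x y

theorem cl0_mono {r r' : ℝ} {o : X} (hr : r ≤ r') {f : ℝ × ℝ → X} (hf : Cl0 A B C r' o f) : Cl0 A B C r o f := by
  exact ⟨hf.cl, fun x hx => hf.eq x (Metric.closedBall_subset_closedBall hr hx)⟩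

theorem E0_mono {r r' : ℝ} {o : X} (hr : r ≤ r') (h : ∃ f, Cl0 A B C r' o f) (x y : ℝ) :
    E0 A B C r o x y ≤ E0 A B C r' o x y := by
  obtain ⟨f0, h0⟩ := h
  refine le_csInf ⟨_, f0, h0, rfl⟩ ?_
  rintro _ ⟨f, hf, rfl⟩
  exact E0_le (cl0_mono hr hf) x y

theorem grd_le (hX : Npc X gm) {f : ℝ × ℝ → X} (hf : Clx A B C f) (x : ℝ) {y : ℝ} (hy : 0 < y) :
    ∫ z in U, (sp f (1, 0) z ^ 2 + sp f (0, 1) z ^ 2) ≤ kap x y * Ex x y f := by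
  have hl : Lpo f U := lpo_mono U_sub hf.lip
  have hi := e2_int hX hl hf.fin x y
  have e : kap x y * Ex x y f = ∫ z in U, kap x y * e2 x y f z := by
    rw [integral_const_mul]
    rfl
  rw [e]
  refine integral_mono_ae hf.fin (hi.const_mul _) ?_
  have h1 : ∀ᵐ z ∂(volume.restrict U), z ∈ U →
      sp f (1, 0) z ^ 2 + sp f (0, 1) z ^ 2 ≤ kap x y * e2 x y f z ∧
      e2 x y f z ≤ kap' x y * (sp f (1, 0) z ^ 2 + sp f (0, 1) z ^ 2) :=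
    ae_restrict_of_ae (e2_cmp hX hl x hy)
  filter_upwards [h1, ae_restrict_mem U_open.measurableSet] with z hz hzU
  exact (hz hzU).1

end H46XB
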