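import Pool.Agent.H98.NX.Xd
import Pool.Agent.H98.NX.Ee

/-!
ROW Va (MP_b319aa_NA, X1: interpolation in the classes Clx, Cl0).
Facts from block NX (use only the statements): `gm_iso`, `gm_self` (Na), `lpo_gm`, `lpo_mono`, `lpo_dist`, `lpo_ball` (Ea), `sp_meas` (Eb), `sp_crude`, `ip_good` (Ek), `sp_real` (Ej).
PROOF. `U_open`, `U_sub`: `U ⊆ D \ P` (the second coordinate of a puncture is `0` or `1/2`). `cl_ip`: `lip`: `lpo_gm`. `glu`: `ip gm f g eta (1, v) = gm (C (f (0,v))) (C (g (0,v))) (eta (0,v)) = C (ip gm f g eta (0,v))` by `gm_iso` (`C` is an isometry,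
`eta (1,v) = eta (0,v)` by `Sy`, `0 ≤ eta ≤ 1` at `(0,v) ∈ D \ P` for `0 < v < 1/2`); similarly `A`, `B`. `fin`: for a.e. `z ∈ U` (`ip_good` on the open set `U`) `sp_crude` gives
`sp (ip ..) t z ≤ sp f t z + sp g t z + |fderiv eta z t| dd f g z`, `|fderiv eta z t| = sp eta t z` (`sp_real`), so `sp (ip ..) t z ^2 ≤ 3 (sp f t z ^2 + sp g t z ^2 + sp eta t z ^2 dd f g z ^2)`; measurable (`sp_meas` on `U`,
`AEStronglyMeasurable` of the indicator): integrable.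
`cl0_ip`: in addition on `Zr r` both maps are `o` and `gm o o s = o` (`gm_self`; `Zr r ⊆ D \ P` needs `r < 1/4`, to have `0 ≤ eta ≤ 1` there). `cl_half`: `eta = s` constant: `sp eta = 0`.
`cl_congr`: the class only depends on the values on `D \ P` (`Zr r ⊆ D \ P`).
-/

set_option autoImplicit false

namespace H46XB

open H50NA H98NX MeasureTheory Set Filter Topology
open H80HM (D U P f1 f2)

variable {X : Type} [MetricSpace X] {gm : X → X → ℝ → X} {A B C : X ≃ᵢ X}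

theorem U_open : IsOpen U := isOpen_Ioo.prod isOpen_Ioo

theorem U_sub : U ⊆ D \ P := by
  rintro ⟨u, v⟩ ⟨h1, h2⟩
  simp only [Set.mem_Ioo] at h1 h2
  refine ⟨⟨⟨h1.1.le, h1.2.le⟩, ⟨h2.1.le, h2.2.le⟩⟩, ?_⟩
  rintro ⟨-, h3⟩
  simp only [Set.mem_insert_iff, Set.mem_singleton_iff] at h3
  rcases h3 with h3 | h3
  · linarith [h2.1]
  · linarith [h2.2]

theorem Zr_sub {r : ℝ} (hr : r < 1 / 4) : Zr r ⊆ U := by
  rintro ⟨u, v⟩ h
  have h' : dist (u, v) ((1 / 4 : ℝ), (1 / 4 : ℝ)) ≤ r := h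
  rw [Prod.dist_eq] at h'
  have h1 : |u - 1 / 4| < 1 / 4 := by
    have := (le_max_left _ _).trans h'
    rw [Real.dist_eq] at this
    exact this.trans_lt hr
  have h2 : |v - 1 / 4| < 1 / 4 := by
    have := (le_max_right _ _).trans h'
    rw [Real.dist_eq] at this
    exact this.trans_lt hr
  rw [abs_lt] at h1 h2
  exact ⟨⟨by linarith [h1.1], by linarith [h1.2]⟩, ⟨by linarith [h2.1], by linarith [h2.2]⟩⟩

theorem Va_real {q : ℝ × ℝ → ℝ} {x : ℝ × ℝ} (h : DifferentiableAt ℝ q x) (t : ℝ × ℝ) :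
    sp q t x = |fderiv ℝ q x t| := by
  apply sp_eq_of_lim
  have h1 := (h.hasFDerivAt.hasLineDerivAt t).tendsto_slope_zero.abs
  refine h1.congr fun s => ?_
  rw [smul_eq_mul, abs_mul, abs_inv, Real.dist_eq]
  ring

theorem Va_aes {F : ℝ × ℝ → X} (hF : Lpo F U) (t : ℝ × ℝ) :
    AEStronglyMeasurable (sp F t) (volume.restrict U) :=
  (aestronglyMeasurable_indicator_iff U_open.measurableSet).1
    (sp_meas U_open (lpo_cont U_open hF) t).aestronglyMeasurable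

theorem Va_glu (hX : Npc X gm) {f g : ℝ × ℝ → X} {eta : ℝ × ℝ → ℝ} (hf : Glu A B C f) (hg : Glu A B C g)
    (h01 : ∀ z ∈ D \ P, 0 ≤ eta z ∧ eta z ≤ 1) (hs : Sy eta) : Glu A B C (ip gm f g eta) := by
  refine ⟨fun v hv => ?_, fun u hu => ?_, fun u hu => ?_⟩
  · have hz : ((0 : ℝ), v) ∈ D \ P := by
      refine ⟨⟨⟨le_rfl, zero_le_one⟩, ⟨hv.1.le, hv.2.le⟩⟩, ?_⟩
      rintro ⟨-, h3⟩
      simp only [Set.mem_insert_iff, Set.mem_singleton_iff] at h3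
      rcases h3 with h3 | h3
      · linarith [hv.1]
      · linarith [hv.2]
    have h0 := h01 _ hz
    unfold ip
    rw [gm_iso hX C (fun a b => C.isometry.dist_eq a b) _ _ h0.1 h0.2, hf.glC v hv, hg.glC v hv,
      hs.sC v ⟨hv.1.le, hv.2.le⟩]
  · have hz : (u, (0 : ℝ)) ∈ D \ P := by
      refine ⟨⟨⟨hu.1.le, by linarith [hu.2]⟩, ⟨le_rfl, by norm_num⟩⟩, ?_⟩
      rintro ⟨h3, -⟩
      simp only [Set.mem_insert_iff, Set.mem_singleton_iff] at h3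
      rcases h3 with h3 | h3 | h3
      · linarith [hu.1]
      · linarith [hu.2]
      · linarith [hu.2]
    have h0 := h01 _ hz
    unfold ip
    rw [gm_iso hX A (fun a b => A.isometry.dist_eq a b) _ _ h0.1 h0.2, hf.glA u hu, hg.glA u hu,
      hs.sA u ⟨hu.1.le, by linarith [hu.2]⟩]
  · have hz : (u, (1 / 2 : ℝ)) ∈ D \ P := by
      refine ⟨⟨⟨hu.1.le, by linarith [hu.2]⟩, ⟨by norm_num, le_rfl⟩⟩, ?_⟩
      rintro ⟨h3, -⟩
      simp only [Set.mem_insert_iff, Set.mem_singleton_iff] at h3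
      rcases h3 with h3 | h3 | h3
      · linarith [hu.1]
      · linarith [hu.2]
      · linarith [hu.2]
    have h0 := h01 _ hz
    unfold ip
    rw [gm_iso hX B (fun a b => B.isometry.dist_eq a b) _ _ h0.1 h0.2, hf.glB u hu, hg.glB u hu,
      hs.sB u ⟨hu.1.le, by linarith [hu.2]⟩]

theorem Va_alg {a b c d s t : ℝ} (hs : 0 ≤ s) (ha : 0 ≤ a) (hb : 0 ≤ b) (hc : 0 ≤ c) (ht0 : 0 ≤ t)
    (ht1 : t ≤ 1) (hd : 0 ≤ d) (h : s ≤ (1 - t) * a + t * b + c * d) :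
    s ^ 2 ≤ 3 * (a ^ 2 + b ^ 2 + c ^ 2 * d ^ 2) := by
  have h1 : s ≤ a + b + c * d := by
    have e1 : (1 - t) * a ≤ a := by nlinarith
    have e2 : t * b ≤ b := by nlinarith
    linarith
  have h2 : 0 ≤ c * d := mul_nonneg hc hd
  have h3 : s ^ 2 ≤ (a + b + c * d) ^ 2 := pow_le_pow_left₀ hs h1 2
  have h4 : (c * d) ^ 2 = c ^ 2 * d ^ 2 := by ring
  nlinarith [sq_nonneg (a - b), sq_nonneg (a - c * d), sq_nonneg (b - c * d)]

theorem cl_ip (hX : Npc X gm) {f g : ℝ × ℝ → X} {eta : ℝ × ℝ → ℝ} (hf : Clx A B C f) (hg : Clx A B C g)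
    (he : Lpo eta (D \ P)) (h01 : ∀ z ∈ D \ P, 0 ≤ eta z ∧ eta z ≤ 1) (hs : Sy eta)
    (hi : IntegrableOn (fun z => (sp eta (1, 0) z ^ 2 + sp eta (0, 1) z ^ 2) * dist (f z) (g z) ^ 2) U) :
    Clx A B C (ip gm f g eta) := by
  have hlip : Lpo (ip gm f g eta) (D \ P) := lpo_gm hX hf.lip hg.lip he h01
  refine ⟨hlip, Va_glu hX hf.glu hg.glu h01 hs, ?_⟩
  have hlU : Lpo (ip gm f g eta) U := lpo_mono U_sub hlip
  have hgood := ip_good (volume : Measure (ℝ × ℝ)) hX U_open (lpo_mono U_sub hf.lip)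
    (lpo_mono U_sub hg.lip) (lpo_mono U_sub he) (fun x hx => h01 x (U_sub hx))
  have hmaj : IntegrableOn (fun z => 3 * ((sp f (1, 0) z ^ 2 + sp f (0, 1) z ^ 2)
      + (sp g (1, 0) z ^ 2 + sp g (0, 1) z ^ 2)
      + (sp eta (1, 0) z ^ 2 + sp eta (0, 1) z ^ 2) * dist (f z) (g z) ^ 2)) U :=
    ((hf.fin.add hg.fin).add hi).const_mul 3
  refine Integrable.mono' hmaj (((Va_aes hlU _).pow 2).add ((Va_aes hlU _).pow 2)) ?_
  filter_upwards [ae_restrict_of_ae hgood, ae_restrict_mem U_open.measurableSet] with z hz hzU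
  obtain ⟨d1, d2, d3, -, d5, d6⟩ := hz hzU
  have hev : ∀ᶠ y in 𝓝 z, 0 ≤ eta y ∧ eta y ≤ 1 := by
    filter_upwards [U_open.mem_nhds hzU] with y hy
    exact h01 y (U_sub hy)
  have h0 := h01 z (U_sub hzU)
  have key : ∀ t : ℝ × ℝ, sp (ip gm f g eta) t z ^ 2 ≤
      3 * (sp f t z ^ 2 + sp g t z ^ 2 + sp eta t z ^ 2 * dist (f z) (g z) ^ 2) := by
    intro t
    have hc := sp_crude hX d1 d2 d3 d6 hev d5.continuousAt t
    rw [← Va_real d6 t] at hc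
    exact Va_alg (sp_nonneg _ _ _) (sp_nonneg _ _ _) (sp_nonneg _ _ _) (sp_nonneg _ _ _) h0.1 h0.2
      dist_nonneg hc
  have k1 := key (1, 0)
  have k2 := key (0, 1)
  rw [Real.norm_of_nonneg (by positivity)]
  linarith

theorem cl0_ip (hX : Npc X gm) {f g : ℝ × ℝ → X} {eta : ℝ × ℝ → ℝ} {r : ℝ} {o : X} (hr : r < 1 / 4)
    (hf : Cl0 A B C r o f) (hg : Cl0 A B C r o g)
    (he : Lpo eta (D \ P)) (h01 : ∀ z ∈ D \ P, 0 ≤ eta z ∧ eta z ≤ 1) (hs : Sy eta)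
    (hi : IntegrableOn (fun z => (sp eta (1, 0) z ^ 2 + sp eta (0, 1) z ^ 2) * dist (f z) (g z) ^ 2) U) :
    Cl0 A B C r o (ip gm f g eta) := by
  refine ⟨cl_ip hX hf.cl hg.cl he h01 hs hi, fun x hx => ?_⟩
  have h0 := h01 x (U_sub (Zr_sub hr hx))
  unfold ip
  rw [hf.eq x hx, hg.eq x hx, gm_self hX o h0.1 h0.2]

theorem Va_cst {f g : ℝ × ℝ → X} (s : ℝ) :
    IntegrableOn (fun z => (sp (fun _ : ℝ × ℝ => s) (1, 0) z ^ 2 + sp (fun _ : ℝ × ℝ => s) (0, 1) z ^ 2)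
      * dist (f z) (g z) ^ 2) U := by
  simp only [sp_const]
  simp

theorem cl_const (hX : Npc X gm) {f g : ℝ × ℝ → X} {s : ℝ} (h0 : 0 ≤ s) (h1 : s ≤ 1) (hf : Clx A B C f)
    (hg : Clx A B C g) : Clx A B C (ip gm f g (fun _ => s)) :=
  cl_ip hX hf hg (lpo_const s _) (fun _ _ => ⟨h0, h1⟩)
    ⟨fun _ _ => rfl, fun _ _ => rfl, fun _ _ => rfl⟩ (Va_cst s)

theorem cl0_const (hX : Npc X gm) {f g : ℝ × ℝ → X} {s r : ℝ} {o : X} (h0 : 0 ≤ s) (h1 : s ≤ 1)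
    (hf : Cl0 A B C r o f) (hg : Cl0 A B C r o g) : Cl0 A B C r o (ip gm f g (fun _ => s)) := by
  refine ⟨cl_const hX h0 h1 hf.cl hg.cl, fun x hx => ?_⟩
  unfold ip
  rw [hf.eq x hx, hg.eq x hx, gm_self hX o h0 h1]

end H46XB
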