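import Pool.Agent.H98.NX.Xd
import Pool.Agent.H98.NX.Ej

/-!
ROW Vd (MP_b319aa_NA, X2: Poincare inequality; real analysis).
PROOF. Work with `ℝ≥0∞`-valued integrals. `q` is differentiable a.e. in `U` (`lpo_diff`, NX/Ea), where `sp q t = |fderiv q z t|` (`sp_real`, NX/Ej). `U = (0,1) × (0,1/2)` (`Measure.prod`, Fubini): for a.e. `v ∈ (0, 1/2)`, for a.e.
`u ∈ (0,1)` `q` is differentiable at `(u, v)`; for such `v` the function `u ↦ q (u, v)` is Lipschitz on compact subintervals of `(0,1)`, absolutely continuous there, with derivative `fderiv q (u,v) (1,0)` a.e. Similarly for columns.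
Rows through the square: `v ∈ (1/4 - r, 1/4 + r)`: `q (1/4, v) = 0`, so `q (u,v)^2 ≤ |u - 1/4| ∫_0^1 sp q (1,0)(s, v)^2 ds ≤ (3/4) ∫_0^1 ...`, and integrating over `u ∈ (0,1)`, `v` in the strip `St`:
`∫_{(0,1) × St} q^2 ≤ (3/4) ∫_U sp q (1,0)^2`. Columns: for a.e. `u`, all `v ∈ (0,1/2)`, `v' ∈ St`: `q (u,v)^2 ≤ 2 q (u,v')^2 + 2 |v - v'| ∫_0^{1/2} sp q (0,1)(u,s)^2 ds ≤ 2 q(u,v')^2 + ∫ ...`; average over `v' ∈ St` (length `2 r`), integrate over
`v ∈ (0,1/2)` and `u ∈ (0,1)`: `∫_U q^2 ≤ (1/2) (2 / (2r)) ∫_{(0,1) × St} q^2 + (1/2) ∫_U sp q (0,1)^2 ≤ (3/(8 r)) ∫ sp q (1,0)^2 + (1/2) ∫ sp q (0,1)^2`. All right sides are finite by assumption; `q^2` is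
continuous on `U`, so integrable.
-/

set_option autoImplicit false

namespace H46XB

open H50NA H98NX MeasureTheory Set Filter Topology
open H80HM (D U P f1 f2)

theorem Vd_good {φ : ℝ → ℝ} {a b : ℝ} (hφ : Lpo φ (Ioo a b)) {y : ℝ} (hy : y ∈ Ioo a b) :
    ∀ᵐ x : ℝ, x ∈ Ioo a b → x ≤ y → ENNReal.ofReal ((φ y - φ x) ^ 2) ≤
      ENNReal.ofReal (y - x) * ∫⁻ s in Ioo a b, ENNReal.ofReal (sp φ 1 s ^ 2) := by
  filter_upwards [line_le (volume : Measure ℝ) isOpen_Ioo hφ 1] with x h hx hle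
  have hh : 0 ≤ y - x := sub_nonneg.2 hle
  obtain ⟨h1, h2, h3⟩ := h (y - x) hh (fun s hs0 hs1 => by
    rw [smul_eq_mul, mul_one]
    exact ⟨by linarith [hx.1], by linarith [hy.2]⟩)
  simp only [smul_eq_mul, mul_one] at h1 h2 h3
  have e0 : x + (y - x) = y := by ring
  rw [e0] at h3
  have h4 := Ee_cs hh h1 h2
  have h5 : (φ y - φ x) ^ 2 ≤ (y - x) * ∫ s in (0:ℝ)..(y - x), sp φ 1 (x + s) ^ 2 := by
    refine le_trans ?_ h4
    rw [← sq_abs, ← Real.dist_eq]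
    exact pow_le_pow_left₀ dist_nonneg h3 2
  refine (ENNReal.ofReal_le_ofReal h5).trans ?_
  rw [ENNReal.ofReal_mul hh]
  refine mul_le_mul_right ?_ _
  rw [intervalIntegral.integral_of_le hh,
    ofReal_integral_eq_lintegral_ofReal ((intervalIntegrable_iff_integrableOn_Ioc_of_le hh).1 h2)
      (Eventually.of_forall fun s => sq_nonneg _)]
  rw [← lintegral_indicator measurableSet_Ioc, ← lintegral_indicator measurableSet_Ioo,
    ← lintegral_add_left_eq_self (μ := (volume : Measure ℝ))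
      ((Ioo a b).indicator fun s => ENNReal.ofReal (sp φ 1 s ^ 2)) x]
  refine lintegral_mono fun s => ?_
  by_cases hs : s ∈ Ioc 0 (y - x)
  · have hs2 : x + s ∈ Ioo a b := ⟨by linarith [hx.1, hs.1], by linarith [hy.2, hs.2]⟩
    rw [indicator_of_mem hs, indicator_of_mem hs2]
  · rw [indicator_of_notMem hs]
    exact zero_le

theorem Vd_le {φ : ℝ → ℝ} {a b : ℝ} (hφ : Lpo φ (Ioo a b)) {x y : ℝ} (hx : x ∈ Ioo a b)
    (hy : y ∈ Ioo a b) (hxy : x ≤ y) : ENNReal.ofReal ((φ y - φ x) ^ 2) ≤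
      ENNReal.ofReal (y - x) * ∫⁻ s in Ioo a b, ENNReal.ofReal (sp φ 1 s ^ 2) := by
  rcases hxy.eq_or_lt with rfl | hlt
  · simp
  have hd := Measure.dense_of_ae (Vd_good hφ hy)
  have hc : x ∈ closure (Ioo x y ∩ {x | x ∈ Ioo a b → x ≤ y → ENNReal.ofReal ((φ y - φ x) ^ 2) ≤
      ENNReal.ofReal (y - x) * ∫⁻ s in Ioo a b, ENNReal.ofReal (sp φ 1 s ^ 2)}) := by
    have h1 := hd.open_subset_closure_inter (isOpen_Ioo : IsOpen (Ioo x y))
    have h2 : x ∈ closure (Ioo x y) := by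
      rw [closure_Ioo hlt.ne]
      exact left_mem_Icc.2 hlt.le
    exact closure_minimal h1 isClosed_closure h2
  have hcont : ContinuousOn φ (Ioo a b) := lpo_cont isOpen_Ioo hφ
  have hsub : Ioo x y ⊆ Ioo a b := Ioo_subset_Ioo hx.1.le hy.2.le
  refine ContinuousWithinAt.closure_le hc (f := fun x' => ENNReal.ofReal ((φ y - φ x') ^ 2))
    (g := fun _ => ENNReal.ofReal (y - x) * ∫⁻ s in Ioo a b, ENNReal.ofReal (sp φ 1 s ^ 2)) ?_
    continuousWithinAt_const ?_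
  · have h1 : ContinuousWithinAt φ (Ioo a b) x := hcont x hx
    have h2 := h1.mono (inter_subset_left.trans hsub :
      Ioo x y ∩ {x | x ∈ Ioo a b → x ≤ y → ENNReal.ofReal ((φ y - φ x) ^ 2) ≤
      ENNReal.ofReal (y - x) * ∫⁻ s in Ioo a b, ENNReal.ofReal (sp φ 1 s ^ 2)} ⊆ Ioo a b)
    exact ENNReal.continuous_ofReal.continuousAt.comp_continuousWithinAt
      ((continuousWithinAt_const.sub h2).pow 2)
  · intro x' hx'
    refine (hx'.2 (hsub hx'.1) hx'.1.2.le).trans ?_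
    refine mul_le_mul_left ?_ _
    exact ENNReal.ofReal_le_ofReal (by linarith [hx'.1.1])

theorem Vd_abs {φ : ℝ → ℝ} {a b : ℝ} (hφ : Lpo φ (Ioo a b)) {x y : ℝ} (hx : x ∈ Ioo a b)
    (hy : y ∈ Ioo a b) : ENNReal.ofReal ((φ y - φ x) ^ 2) ≤
      ENNReal.ofReal |y - x| * ∫⁻ s in Ioo a b, ENNReal.ofReal (sp φ 1 s ^ 2) := by
  rcases le_total x y with h | h
  · rw [abs_of_nonneg (sub_nonneg.2 h)]
    exact Vd_le hφ hx hy h
  · have h1 := Vd_le hφ hy hx h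
    have e : (φ y - φ x) ^ 2 = (φ x - φ y) ^ 2 := by ring
    rw [abs_sub_comm, abs_of_nonneg (sub_nonneg.2 h), e]
    exact h1

theorem Vd_row {q : ℝ × ℝ → ℝ} (hq : Lpo q U) {v : ℝ} (hv : v ∈ Ioo (0:ℝ) (1/2)) {x y : ℝ}
    (hx : x ∈ Ioo (0:ℝ) 1) (hy : y ∈ Ioo (0:ℝ) 1) :
    ENNReal.ofReal ((q (y, v) - q (x, v)) ^ 2) ≤
      ENNReal.ofReal |y - x| * ∫⁻ s in Ioo (0:ℝ) 1, ENNReal.ofReal (sp q (1, 0) (s, v) ^ 2) := by
  have h1 : Lpo (fun u : ℝ => q (u, v)) (Ioo (0:ℝ) 1) := by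
    refine lpo_comp (f := q) (G := fun u : ℝ => (u, v)) (K := 1) (S := U) (fun a b => ?_)
      (fun a ha => ⟨ha, hv⟩) hq
    rw [Prod.dist_eq, dist_self, one_mul]
    exact max_le le_rfl dist_nonneg
  have h2 := Vd_abs h1 hx hy
  have h3 : ∀ s : ℝ, sp (fun u : ℝ => q (u, v)) 1 s = sp q (1, 0) (s, v) := by
    intro s
    have := sp_lin q (fun u : ℝ => (u, v)) (LinearMap.inl ℝ ℝ ℝ) (fun a b => by
      simp [LinearMap.inl_apply]) 1 s
    simpa using this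
  simp only [h3] at h2
  exact h2

theorem Vd_col {q : ℝ × ℝ → ℝ} (hq : Lpo q U) {u : ℝ} (hu : u ∈ Ioo (0:ℝ) 1) {x y : ℝ}
    (hx : x ∈ Ioo (0:ℝ) (1/2)) (hy : y ∈ Ioo (0:ℝ) (1/2)) :
    ENNReal.ofReal ((q (u, y) - q (u, x)) ^ 2) ≤
      ENNReal.ofReal |y - x| * ∫⁻ s in Ioo (0:ℝ) (1/2), ENNReal.ofReal (sp q (0, 1) (u, s) ^ 2) := by
  have h1 : Lpo (fun v : ℝ => q (u, v)) (Ioo (0:ℝ) (1/2)) := by
    refine lpo_comp (f := q) (G := fun v : ℝ => (u, v)) (K := 1) (S := U) (fun a b => ?_)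
      (fun a ha => ⟨hu, ha⟩) hq
    rw [Prod.dist_eq, dist_self, one_mul]
    exact max_le dist_nonneg le_rfl
  have h2 := Vd_abs h1 hx hy
  have h3 : ∀ s : ℝ, sp (fun v : ℝ => q (u, v)) 1 s = sp q (0, 1) (u, s) := by
    intro s
    have := sp_lin q (fun v : ℝ => (u, v)) (LinearMap.inr ℝ ℝ ℝ) (fun a b => by
      simp [LinearMap.inr_apply]) 1 s
    simpa using this
  simp only [h3] at h2
  exact h2

theorem Vd_aem {q : ℝ × ℝ → ℝ} (hq : Lpo q U) (t : ℝ × ℝ) :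
    AEMeasurable (fun z => sp q t z ^ 2) (volume.restrict U) := by
  have hO : IsOpen U := isOpen_Ioo.prod isOpen_Ioo
  have h1 := ((sp_meas hO (lpo_cont hO hq) t).pow_const 2).aemeasurable (μ := volume.restrict U)
  refine h1.congr ?_
  rw [EventuallyEq, ae_restrict_iff' hO.measurableSet]
  filter_upwards with x hx
  rw [indicator_of_mem hx]

/-- the pointwise bound -/
theorem Vd_pt {q : ℝ × ℝ → ℝ} {r : ℝ} (hr : 0 < r) (hr4 : r < 1 / 4) (hq : Lpo q U)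
    (h0 : ∀ z ∈ Zr r, q z = 0) {u v : ℝ} (hu : u ∈ Ioo (0:ℝ) 1) (hv : v ∈ Ioo (0:ℝ) (1/2)) :
    ENNReal.ofReal (2 * r) * ENNReal.ofReal (q (u, v) ^ 2) ≤
      ENNReal.ofReal (3 / 2) * (∫⁻ v' in Ioo (0:ℝ) (1/2), ∫⁻ s in Ioo (0:ℝ) 1,
        ENNReal.ofReal (sp q (1, 0) (s, v') ^ 2)) +
      ENNReal.ofReal (2 * r) * ∫⁻ s in Ioo (0:ℝ) (1/2), ENNReal.ofReal (sp q (0, 1) (u, s) ^ 2) := by
  have hsub : Ioo (1/4 - r) (1/4 + r) ⊆ Ioo (0:ℝ) (1/2) := Ioo_subset_Ioo (by linarith) (by linarith)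
  have hvol : (volume : Measure ℝ) (Ioo (1/4 - r) (1/4 + r)) = ENNReal.ofReal (2 * r) := by
    rw [Real.volume_Ioo]
    congr 1
    ring
  have hrow : ∀ v' ∈ Ioo (1/4 - r) (1/4 + r), ENNReal.ofReal (q (u, v') ^ 2) ≤
      ENNReal.ofReal (3 / 4) * ∫⁻ s in Ioo (0:ℝ) 1, ENNReal.ofReal (sp q (1, 0) (s, v') ^ 2) := by
    intro v' hv'
    have hz : q (1/4, v') = 0 := by
      apply h0
      rw [Zr, Metric.mem_closedBall, Prod.dist_eq, dist_self, Real.dist_eq]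
      refine max_le hr.le ?_
      rw [abs_le]
      exact ⟨by linarith [hv'.1], by linarith [hv'.2]⟩
    have h1 := Vd_row hq (hsub hv') (x := 1/4) (by constructor <;> norm_num) hu
    rw [hz, sub_zero] at h1
    refine h1.trans (mul_le_mul_left (ENNReal.ofReal_le_ofReal ?_) _)
    rw [abs_le]
    exact ⟨by linarith [hu.1], by linarith [hu.2]⟩
  have hcol : ∀ v' ∈ Ioo (1/4 - r) (1/4 + r), ENNReal.ofReal (q (u, v) ^ 2) ≤
      ENNReal.ofReal (3 / 2) * (∫⁻ s in Ioo (0:ℝ) 1, ENNReal.ofReal (sp q (1, 0) (s, v') ^ 2)) +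
      ∫⁻ s in Ioo (0:ℝ) (1/2), ENNReal.ofReal (sp q (0, 1) (u, s) ^ 2) := by
    intro v' hv'
    have h1 := Vd_col hq hu (hsub hv') hv
    have h2 := hrow v' hv'
    have h3 : q (u, v) ^ 2 ≤ 2 * q (u, v') ^ 2 + 2 * (q (u, v) - q (u, v')) ^ 2 := by
      nlinarith [sq_nonneg (2 * q (u, v') - q (u, v))]
    refine (ENNReal.ofReal_le_ofReal h3).trans ?_
    rw [ENNReal.ofReal_add (by positivity) (by positivity), ENNReal.ofReal_mul (by norm_num),
      ENNReal.ofReal_mul (by norm_num)]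
    refine add_le_add ?_ ?_
    · calc ENNReal.ofReal 2 * ENNReal.ofReal (q (u, v') ^ 2)
          ≤ ENNReal.ofReal 2 * (ENNReal.ofReal (3 / 4) *
            ∫⁻ s in Ioo (0:ℝ) 1, ENNReal.ofReal (sp q (1, 0) (s, v') ^ 2)) :=
            mul_le_mul_right h2 _
        _ = _ := by
            rw [← mul_assoc, ← ENNReal.ofReal_mul (by norm_num)]
            norm_num
    · calc ENNReal.ofReal 2 * ENNReal.ofReal ((q (u, v) - q (u, v')) ^ 2)
          ≤ ENNReal.ofReal 2 * (ENNReal.ofReal (1 / 2) *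
            ∫⁻ s in Ioo (0:ℝ) (1/2), ENNReal.ofReal (sp q (0, 1) (u, s) ^ 2)) := by
            refine mul_le_mul_right (h1.trans (mul_le_mul_left (ENNReal.ofReal_le_ofReal ?_) _)) _
            rw [abs_le]
            have := hsub hv'
            exact ⟨by linarith [hv.1, this.2], by linarith [hv.2, this.1]⟩
        _ = _ := by
            rw [← mul_assoc, ← ENNReal.ofReal_mul (by norm_num)]
            norm_num
  calc ENNReal.ofReal (2 * r) * ENNReal.ofReal (q (u, v) ^ 2)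
      = ∫⁻ _v' in Ioo (1/4 - r) (1/4 + r), ENNReal.ofReal (q (u, v) ^ 2) := by
        rw [lintegral_const, Measure.restrict_apply_univ, hvol, mul_comm]
    _ ≤ ∫⁻ v' in Ioo (1/4 - r) (1/4 + r), (ENNReal.ofReal (3 / 2) *
        (∫⁻ s in Ioo (0:ℝ) 1, ENNReal.ofReal (sp q (1, 0) (s, v') ^ 2)) +
        ∫⁻ s in Ioo (0:ℝ) (1/2), ENNReal.ofReal (sp q (0, 1) (u, s) ^ 2)) :=
        setLIntegral_mono' measurableSet_Ioo hcol
    _ = ENNReal.ofReal (3 / 2) * (∫⁻ v' in Ioo (1/4 - r) (1/4 + r),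
        ∫⁻ s in Ioo (0:ℝ) 1, ENNReal.ofReal (sp q (1, 0) (s, v') ^ 2)) +
        ENNReal.ofReal (2 * r) * ∫⁻ s in Ioo (0:ℝ) (1/2), ENNReal.ofReal (sp q (0, 1) (u, s) ^ 2) := by
        rw [lintegral_add_right _ measurable_const, lintegral_const_mul' _ _ ENNReal.ofReal_ne_top,
          lintegral_const, Measure.restrict_apply_univ, hvol, mul_comm (ENNReal.ofReal (2 * r))]
    _ ≤ _ := by
        refine add_le_add_left (mul_le_mul_right (lintegral_mono_set hsub) _) _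

theorem poin {q : ℝ × ℝ → ℝ} {r : ℝ} (hr : 0 < r) (hr4 : r < 1 / 4) (hq : Lpo q U) (h0 : ∀ z ∈ Zr r, q z = 0)
    (hi : IntegrableOn (fun z => sp q (1, 0) z ^ 2 + sp q (0, 1) z ^ 2) U) :
    IntegrableOn (fun z => q z ^ 2) U ∧
      ∫ z in U, q z ^ 2 ≤ (1 / (2 * r) + 1 / 2) * ∫ z in U, (sp q (1, 0) z ^ 2 + sp q (0, 1) z ^ 2) := by
  have hO : IsOpen U := isOpen_Ioo.prod isOpen_Ioo
  have hm1 := Vd_aem hq (1, 0)
  have hm2 := Vd_aem hq (0, 1)
  have hi1 : IntegrableOn (fun z => sp q (1, 0) z ^ 2) U := by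
    refine Integrable.mono' hi hm1.aestronglyMeasurable (Eventually.of_forall fun z => ?_)
    rw [Real.norm_of_nonneg (sq_nonneg _)]
    exact le_add_of_nonneg_right (sq_nonneg _)
  have hi2 : IntegrableOn (fun z => sp q (0, 1) z ^ 2) U := by
    refine Integrable.mono' hi hm2.aestronglyMeasurable (Eventually.of_forall fun z => ?_)
    rw [Real.norm_of_nonneg (sq_nonneg _)]
    exact le_add_of_nonneg_left (sq_nonneg _)
  have hprod : (volume : Measure (ℝ × ℝ)).restrict U =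
      (volume.restrict (Ioo (0:ℝ) 1)).prod (volume.restrict (Ioo (0:ℝ) (1/2))) := by
    rw [Measure.prod_restrict]
    rfl
  have hJ1 : ∫⁻ v' in Ioo (0:ℝ) (1/2), ∫⁻ s in Ioo (0:ℝ) 1, ENNReal.ofReal (sp q (1, 0) (s, v') ^ 2) =
      ENNReal.ofReal (∫ z in U, sp q (1, 0) z ^ 2) := by
    rw [ofReal_integral_eq_lintegral_ofReal hi1 (Eventually.of_forall fun s => sq_nonneg _), hprod,
      lintegral_prod_symm]
    rw [← hprod]
    exact hm1.ennreal_ofReal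
  have hJ2 : ∫⁻ u in Ioo (0:ℝ) 1, ∫⁻ s in Ioo (0:ℝ) (1/2), ENNReal.ofReal (sp q (0, 1) (u, s) ^ 2) =
      ENNReal.ofReal (∫ z in U, sp q (0, 1) z ^ 2) := by
    rw [ofReal_integral_eq_lintegral_ofReal hi2 (Eventually.of_forall fun s => sq_nonneg _), hprod,
      lintegral_prod]
    rw [← hprod]
    exact hm2.ennreal_ofReal
  obtain ⟨j1, hj1⟩ : ∃ j1, j1 = ∫ z in U, sp q (1, 0) z ^ 2 := ⟨_, rfl⟩
  obtain ⟨j2, hj2⟩ : ∃ j2, j2 = ∫ z in U, sp q (0, 1) z ^ 2 := ⟨_, rfl⟩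
  have hj1n : 0 ≤ j1 := hj1 ▸ integral_nonneg fun z => sq_nonneg _
  have hj2n : 0 ≤ j2 := hj2 ▸ integral_nonneg fun z => sq_nonneg _
  rw [← hj1] at hJ1
  rw [← hj2] at hJ2
  have hqc : ContinuousOn (fun z => q z ^ 2) U := (lpo_cont hO hq).pow 2
  have hqm : AEStronglyMeasurable (fun z => q z ^ 2) (volume.restrict U) :=
    hqc.aestronglyMeasurable hO.measurableSet
  -- the bound for the lintegral
  have hmain : ENNReal.ofReal (2 * r) * ∫⁻ z in U, ENNReal.ofReal (q z ^ 2) ≤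
      ENNReal.ofReal (3 / 4 * j1 + r * j2) := by
    have e1 : ENNReal.ofReal (2 * r) * ∫⁻ z in U, ENNReal.ofReal (q z ^ 2) =
        ∫⁻ u in Ioo (0:ℝ) 1, ∫⁻ v in Ioo (0:ℝ) (1/2),
          ENNReal.ofReal (2 * r) * ENNReal.ofReal (q (u, v) ^ 2) := by
      rw [← lintegral_const_mul' _ _ ENNReal.ofReal_ne_top, hprod, lintegral_prod]
      rw [← hprod]
      exact hqm.aemeasurable.ennreal_ofReal.const_mul _
    rw [e1]
    calc ∫⁻ u in Ioo (0:ℝ) 1, ∫⁻ v in Ioo (0:ℝ) (1/2),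
          ENNReal.ofReal (2 * r) * ENNReal.ofReal (q (u, v) ^ 2)
        ≤ ∫⁻ u in Ioo (0:ℝ) 1, ∫⁻ _v in Ioo (0:ℝ) (1/2), (ENNReal.ofReal (3 / 2) * ENNReal.ofReal j1 +
          ENNReal.ofReal (2 * r) *
            ∫⁻ s in Ioo (0:ℝ) (1/2), ENNReal.ofReal (sp q (0, 1) (u, s) ^ 2)) := by
          refine setLIntegral_mono' measurableSet_Ioo fun u hu => ?_
          refine setLIntegral_mono' measurableSet_Ioo fun v hv => ?_
          rw [← hJ1]
          exact Vd_pt hr hr4 hq h0 hu hv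
      _ = ∫⁻ u in Ioo (0:ℝ) 1, (ENNReal.ofReal (3 / 4 * j1) + ENNReal.ofReal r *
            ∫⁻ s in Ioo (0:ℝ) (1/2), ENNReal.ofReal (sp q (0, 1) (u, s) ^ 2)) := by
          refine lintegral_congr fun u => ?_
          rw [lintegral_const, Measure.restrict_apply_univ, Real.volume_Ioo, sub_zero, add_mul,
            ← ENNReal.ofReal_mul (by norm_num : (0:ℝ) ≤ 3 / 2),
            ← ENNReal.ofReal_mul (by positivity : (0:ℝ) ≤ 3 / 2 * j1),
            mul_right_comm (ENNReal.ofReal (2 * r)),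
            ← ENNReal.ofReal_mul (by positivity : (0:ℝ) ≤ 2 * r)]
          congr 2
          · ring_nf
          · ring_nf
      _ = ENNReal.ofReal (3 / 4 * j1 + r * j2) := by
          rw [lintegral_add_left measurable_const, lintegral_const, Measure.restrict_apply_univ,
            Real.volume_Ioo, sub_zero, ENNReal.ofReal_one, mul_one,
            lintegral_const_mul' _ _ ENNReal.ofReal_ne_top, hJ2, ← ENNReal.ofReal_mul hr.le,
            ← ENNReal.ofReal_add (by positivity) (by positivity)]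
  have h2r : (0:ℝ) < 2 * r := by positivity
  have hbd : ∫⁻ z in U, ENNReal.ofReal (q z ^ 2) ≤
      ENNReal.ofReal ((1 / (2 * r) + 1 / 2) * (j1 + j2)) := by
    have h1 : ∫⁻ z in U, ENNReal.ofReal (q z ^ 2) ≤
        ENNReal.ofReal (3 / 4 * j1 + r * j2) / ENNReal.ofReal (2 * r) := by
      rw [ENNReal.le_div_iff_mul_le (Or.inl (ENNReal.ofReal_pos.2 h2r).ne')
        (Or.inl ENNReal.ofReal_ne_top), mul_comm]
      exact hmain
    refine h1.trans ?_
    rw [← ENNReal.ofReal_div_of_pos h2r]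
    apply ENNReal.ofReal_le_ofReal
    rw [div_le_iff₀ h2r]
    have e : (1 / (2 * r) + 1 / 2) * (j1 + j2) * (2 * r) = (1 + r) * (j1 + j2) := by
      field_simp
    rw [e]
    nlinarith [mul_nonneg hr.le hj1n, mul_nonneg hr.le hj2n]
  have hint : IntegrableOn (fun z => q z ^ 2) U := by
    rw [IntegrableOn, ← lintegral_ofReal_ne_top_iff_integrable hqm
      (Eventually.of_forall fun x => sq_nonneg _)]
    exact ne_top_of_le_ne_top ENNReal.ofReal_ne_top hbd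
  refine ⟨hint, ?_⟩
  have hsum : ∫ z in U, (sp q (1, 0) z ^ 2 + sp q (0, 1) z ^ 2) = j1 + j2 := by
    rw [integral_add hi1 hi2, hj1, hj2]
  rw [hsum, ← ENNReal.ofReal_le_ofReal_iff (by positivity),
    ofReal_integral_eq_lintegral_ofReal hint (Eventually.of_forall fun x => sq_nonneg _)]
  exact hbd

end H46XB
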