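import Pool.Agent.H46.XB.Vc
import Pool.Agent.H46.XB.Vd

/-!
ROW Ve (MP_b319aa_NA, X3: strong convexity and its consequences).
Facts from block NX (use only the statements): `sp_one`, `ip_good`, `sp_dist`, `mt`, `dd`, `ip` (Ek), `lpo_dist`, `lpo_diff`, `lpo_mono` (Ea), `sp_real` (Ej), `sp_meas` (Eb).
PROOF. `mt_int`: `mt f g t ≤ (sp f t + sp g t)^2 ≤ 2 sp f t ^2 + 2 sp g t ^2` a.e. on `U` (`sp_dist`), measurable; `sp_all_int`. `mt_nonneg`: maximum of squares.
`mid_le`: for `h = ip gm f g (1/2)`: `sp_one` with `s = 1/2` for `t = fe`, `t = ff` a.e. on `U` (`ip_good` with `eta = 1/2`) and `ex_frame` for `f`, `g`, `h`: `Ex h ≤ (Ex f + Ex g)/2 - (1/4) ∫_U (mt f g fe + mt f g ff)`.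
`near_conv`: `h` is in `Cl0` (`cl0_const`), so `E0 ≤ Ex h` and `Ex f, Ex g ≤ E0 + ep`.
`grad_dd`: a.e. on `U`: `sp (dd f g) (1,0)^2 + sp (dd f g) (0,1)^2 = (fderiv (dd f g) z (1,0))^2 + (fderiv .. (0,1))^2 ≤ kap x y * ((fderiv .. f1)^2 + (fderiv .. f2)^2) ≤ kap x y * (mt f g f1 + mt f g f2)` (`fd_cmp`, `sp_real`,
`lpo_diff`), so it is integrable, with integral `≤ kap x y * ∫ (mt f g f1 + mt f g f2)`. `dist_le`: `poin` for `q = dd f g` (`= 0` on `Zr r`). `near_dist`: `near_conv` with `th = 0` (`fe x y 0 = f1 x y`, `ff x y 0 = f2 x y`).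
-/

set_option autoImplicit false

namespace H46XB

open H50NA H98NX MeasureTheory Set Filter Topology
open H80HM (D U P f1 f2)

variable {X : Type} [MetricSpace X] {gm : X → X → ℝ → X} {A B C : X ≃ᵢ X}

theorem frame_zero (x y : ℝ) : fe x y 0 = f1 x y ∧ ff x y 0 = f2 x y := by
  constructor
  · simp [fe]
  · simp [ff]

theorem mt_nonneg (f g : ℝ × ℝ → X) (t z : ℝ × ℝ) : 0 ≤ mt f g t z :=
  le_max_of_le_left (sq_nonneg _)

private theorem Ve_meas {Y : Type} [MetricSpace Y] {f : ℝ × ℝ → Y} (hf : Lpo f U) (t : ℝ × ℝ) :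
    AEStronglyMeasurable (sp f t) (volume.restrict U) := by
  have h1 := (sp_meas U_open (lpo_cont U_open hf) t).aestronglyMeasurable (μ := volume.restrict U)
  refine h1.congr ?_
  rw [EventuallyEq, ae_restrict_iff' U_open.measurableSet]
  filter_upwards with x hx
  rw [indicator_of_mem hx]

private theorem Ve_good (hX : Npc X gm) {f g : ℝ × ℝ → X} (hf : Lpo f U) (hg : Lpo g U) :
    ∀ᵐ z ∂(volume.restrict U), Dlim f z ∧ Dlim g z ∧ Dlim (ip gm f g (fun _ => 1 / 2)) z ∧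
      Dlim (ip gm g f (fun _ => 1 / 2)) z ∧ DifferentiableAt ℝ (dd f g) z := by
  rw [ae_restrict_iff' U_open.measurableSet]
  filter_upwards [ip_good (volume : Measure (ℝ × ℝ)) hX U_open hf hg
    (eta := fun _ => (1 / 2 : ℝ)) (lpo_const (1 / 2 : ℝ) U)
    (fun _ _ => ⟨by norm_num, by norm_num⟩)] with z hz hzU
  obtain ⟨a1, a2, a3, a4, a5, -⟩ := hz hzU
  exact ⟨a1, a2, a3, a4, a5⟩

theorem mt_int (hX : Npc X gm) {f g : ℝ × ℝ → X} (hf : Clx A B C f) (hg : Clx A B C g) (t : ℝ × ℝ) :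
    IntegrableOn (mt f g t) U := by
  have hfU : Lpo f U := lpo_mono U_sub hf.lip
  have hgU : Lpo g U := lpo_mono U_sub hg.lip
  have i1 := sp_all_int hX hfU hf.fin t
  have i2 := sp_all_int hX hgU hg.fin t
  have hb : Integrable (fun z => 2 * sp f t z ^ 2 + 2 * sp g t z ^ 2) (volume.restrict U) :=
    (i1.const_mul 2).add (i2.const_mul 2)
  refine hb.mono' ?_ ?_
  · exact (((Ve_meas hfU t).sub (Ve_meas hgU t)).pow 2).sup
      ((measurable_fderiv_apply_const ℝ (dd f g) t).pow_const 2).aestronglyMeasurable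
  · filter_upwards [Ve_good hX hfU hgU] with z hz
    have h1 := sp_dist hz.1 hz.2.1 hz.2.2.2.2 t
    have n1 := sp_nonneg f t z
    have n2 := sp_nonneg g t z
    rw [Real.norm_of_nonneg (mt_nonneg f g t z)]
    refine max_le ?_ ?_
    · nlinarith
    · have h2 : fderiv ℝ (dd f g) z t ^ 2 ≤ (sp f t z + sp g t z) ^ 2 := by
        rw [← sq_abs]
        exact pow_le_pow_left₀ (abs_nonneg _) h1 2
      nlinarith [sq_nonneg (sp f t z - sp g t z)]

theorem mid_le (hX : Npc X gm) {f g : ℝ × ℝ → X} (hf : Clx A B C f) (hg : Clx A B C g) (x y th : ℝ) :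
    Ex x y (ip gm f g (fun _ => 1 / 2)) ≤ (Ex x y f + Ex x y g) / 2 -
      1 / 4 * ∫ z in U, (mt f g (fe x y th) z + mt f g (ff x y th) z) := by
  have hh : Clx A B C (ip gm f g (fun _ => 1 / 2)) :=
    cl_const hX (by norm_num) (by norm_num) hf hg
  have hfU : Lpo f U := lpo_mono U_sub hf.lip
  have hgU : Lpo g U := lpo_mono U_sub hg.lip
  have hhU : Lpo (ip gm f g (fun _ => 1 / 2)) U := lpo_mono U_sub hh.lip
  have i1 : Integrable (fun z => sp f (fe x y th) z ^ 2 + sp f (ff x y th) z ^ 2)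
    (volume.restrict U) := (sp_all_int hX hfU hf.fin _).add (sp_all_int hX hfU hf.fin _)
  have i2 : Integrable (fun z => sp g (fe x y th) z ^ 2 + sp g (ff x y th) z ^ 2)
    (volume.restrict U) := (sp_all_int hX hgU hg.fin _).add (sp_all_int hX hgU hg.fin _)
  have i3 : Integrable (fun z => sp (ip gm f g (fun _ => 1 / 2)) (fe x y th) z ^ 2 +
    sp (ip gm f g (fun _ => 1 / 2)) (ff x y th) z ^ 2)
    (volume.restrict U) := (sp_all_int hX hhU hh.fin _).add (sp_all_int hX hhU hh.fin _)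
  have i4 : Integrable (fun z => mt f g (fe x y th) z + mt f g (ff x y th) z)
    (volume.restrict U) := (mt_int hX hf hg _).add (mt_int hX hf hg _)
  have i5 := ((i1.const_mul (1 / 2)).add (i2.const_mul (1 / 2))).sub (i4.const_mul (1 / 4))
  rw [ex_frame hX hhU x y th, ex_frame hX hfU x y th, ex_frame hX hgU x y th]
  have h1 := integral_mono_ae i3 i5 (by
    filter_upwards [Ve_good hX hfU hgU] with z hz
    have e1 := sp_one hX (s := 1 / 2) (by norm_num) (by norm_num) hz.1 hz.2.1 hz.2.2.1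
      hz.2.2.2.2 (fe x y th)
    have e2 := sp_one hX (s := 1 / 2) (by norm_num) (by norm_num) hz.1 hz.2.1 hz.2.2.1
      hz.2.2.2.2 (ff x y th)
    simp only [Pi.sub_apply, Pi.add_apply]
    linarith)
  refine h1.trans (le_of_eq ?_)
  rw [integral_sub' ((i1.const_mul (1 / 2)).add (i2.const_mul (1 / 2))) (i4.const_mul (1 / 4)),
    integral_add' (i1.const_mul (1 / 2)) (i2.const_mul (1 / 2)), integral_const_mul,
    integral_const_mul, integral_const_mul]
  ring

theorem near_conv (hX : Npc X gm) {f g : ℝ × ℝ → X} {r ep : ℝ} {o : X} {x y : ℝ}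
    (hf : Nr A B C r o x y ep f) (hg : Nr A B C r o x y ep g) (th : ℝ) :
    ∫ z in U, (mt f g (fe x y th) z + mt f g (ff x y th) z) ≤ 4 * ep := by
  have h1 : Cl0 A B C r o (ip gm f g (fun _ => 1 / 2)) :=
    cl0_const hX (by norm_num) (by norm_num) hf.1 hg.1
  have h2 := E0_le h1 x y
  have h3 := mid_le hX hf.1.cl hg.1.cl x y th
  have h4 := hf.2
  have h5 := hg.2
  linarith

private theorem Ve_kap (x : ℝ) {y : ℝ} (hy : 0 < y) : 0 ≤ kap x y := by
  unfold kap
  positivity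

theorem grad_dd (hX : Npc X gm) {f g : ℝ × ℝ → X} (hf : Clx A B C f) (hg : Clx A B C g) (x : ℝ) {y : ℝ}
    (hy : 0 < y) :
    IntegrableOn (fun z => sp (dd f g) (1, 0) z ^ 2 + sp (dd f g) (0, 1) z ^ 2) U ∧
      ∫ z in U, (sp (dd f g) (1, 0) z ^ 2 + sp (dd f g) (0, 1) z ^ 2) ≤
        kap x y * ∫ z in U, (mt f g (f1 x y) z + mt f g (f2 x y) z) := by
  have hfU : Lpo f U := lpo_mono U_sub hf.lip
  have hgU : Lpo g U := lpo_mono U_sub hg.lip
  have hdU : Lpo (dd f g) U := lpo_dist hfU hgU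
  have i4 : Integrable (fun z => mt f g (f1 x y) z + mt f g (f2 x y) z)
    (volume.restrict U) := (mt_int hX hf hg _).add (mt_int hX hf hg _)
  have i5 := i4.const_mul (kap x y)
  have hle : ∀ᵐ z ∂(volume.restrict U), sp (dd f g) (1, 0) z ^ 2 + sp (dd f g) (0, 1) z ^ 2 ≤
      kap x y * (mt f g (f1 x y) z + mt f g (f2 x y) z) := by
    filter_upwards [Ve_good hX hfU hgU] with z hz
    have hd := hz.2.2.2.2
    rw [sp_real hd, sp_real hd, sq_abs, sq_abs]
    refine (fd_cmp (fderiv ℝ (dd f g) z) x hy).trans ?_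
    refine mul_le_mul_of_nonneg_left ?_ (Ve_kap x hy)
    exact add_le_add (le_max_right _ _) (le_max_right _ _)
  have hint : Integrable (fun z => sp (dd f g) (1, 0) z ^ 2 + sp (dd f g) (0, 1) z ^ 2)
      (volume.restrict U) := by
    refine i5.mono' ?_ ?_
    · exact ((Ve_meas hdU (1, 0)).pow 2).add ((Ve_meas hdU (0, 1)).pow 2)
    · filter_upwards [hle] with z hz
      rw [Real.norm_of_nonneg (add_nonneg (sq_nonneg _) (sq_nonneg _))]
      exact hz
  refine ⟨hint, ?_⟩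
  rw [← integral_const_mul]
  exact integral_mono_ae hint i5 hle

theorem dist_le (hX : Npc X gm) {f g : ℝ × ℝ → X} {r : ℝ} {o : X} (hr : 0 < r) (hr4 : r < 1 / 4)
    (hf : Cl0 A B C r o f) (hg : Cl0 A B C r o g) (x : ℝ) {y : ℝ} (hy : 0 < y) :
    IntegrableOn (fun z => dist (f z) (g z) ^ 2) U ∧
      ∫ z in U, dist (f z) (g z) ^ 2 ≤
        (1 / (2 * r) + 1 / 2) * kap x y * ∫ z in U, (mt f g (f1 x y) z + mt f g (f2 x y) z) := by
  have hfU : Lpo f U := lpo_mono U_sub hf.cl.lip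
  have hgU : Lpo g U := lpo_mono U_sub hg.cl.lip
  have hdU : Lpo (dd f g) U := lpo_dist hfU hgU
  obtain ⟨g1, g2⟩ := grad_dd hX hf.cl hg.cl x hy
  obtain ⟨p1, p2⟩ := poin hr hr4 hdU (fun z hz => by
    simp only [dd]
    rw [hf.eq z hz, hg.eq z hz, dist_self]) g1
  refine ⟨p1, le_trans p2 ?_⟩
  rw [mul_assoc]
  exact mul_le_mul_of_nonneg_left g2 (by positivity)

theorem near_dist (hX : Npc X gm) {f g : ℝ × ℝ → X} {r ep : ℝ} {o : X} {x y : ℝ} (hr : 0 < r) (hr4 : r < 1 / 4)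
    (hy : 0 < y) (hf : Nr A B C r o x y ep f) (hg : Nr A B C r o x y ep g) :
    ∫ z in U, dist (f z) (g z) ^ 2 ≤ (1 / (2 * r) + 1 / 2) * kap x y * (4 * ep) := by
  refine (dist_le hX hr hr4 hf.1 hg.1 x hy).2.trans ?_
  have h1 := near_conv hX hf hg 0
  rw [(frame_zero x y).1, (frame_zero x y).2] at h1
  exact mul_le_mul_of_nonneg_left h1 (mul_nonneg (by positivity) (Ve_kap x hy))

end H46XB
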