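import Pool.Agent.H46.XB.Vc

/-!
ROW Vg (MP_b319aa_NA, X7: dependence of the energies on the point of the upper half plane).
PROOF. `e2_log`: let `f1 = f1 x y` etc. and `B` the quadratic form at `z` (`md_ae`, NX/Eh). `f1' = p f1`, `f2' = q f1 + w f2` with `p = √(y'/y)`, `q = (x - x') / √(y y')`, `w = √(y/y')`, `p w = 1` (from `(1,0) = f1/√y`, `(0,1) = √y f2 + (x/√y) f1`).
`e2' = (p^2 + q^2) a + 2 q w b + w^2 c`, `a = B f1 f1`, `b = B f1 f2`, `c = B f2 f2`, `b^2 ≤ a c`. `L = exd` satisfies `L + 1/L = 2 chd = p^2 + q^2 + w^2` (`chd ≥ 1`, `L * (chd - √(chd^2-1)) = 1`), so `(L - p^2 - q^2)(L - w^2) = q^2 w^2` and `L ≥ w^2`,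
`L ≥ p^2 + q^2` (both factors have the same sign and their sum `2 L - (L + 1/L) = L - 1/L ≥ 0`; if the product is `0` treat separately), hence `e2' ≤ L (a + c) = L e2`.
`ex_log`: integrate (`e2_int`). `E0_log`, `EX_log`: infimum over the class (if the class is empty both sides are `sInf ∅ = 0`): `le_csInf`/`csInf_le`: for every `f` in the class `E0 .. x' y' ≤ Ex x' y' f ≤ L Ex x y f`.
`exd_cont`: `exd x y x' y'` is continuous in `(x', y')`, `y' > 0`, symmetric in the two points, and `exd x y x y = 1`. `E0_cont`: `E0 (x', y') ≤ L E0 (x, y)` and `E0 (x,y) ≤ L E0 (x',y')` with `L → 1`: squeeze.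
-/

set_option autoImplicit false

namespace H46XB

open H50NA H98NX MeasureTheory Set Filter Topology
open H80HM (D U P f1 f2)

variable {X : Type} [MetricSpace X] {gm : X → X → ℝ → X} {A B C : X ≃ᵢ X}

/-- cosh of the hyperbolic distance -/
noncomputable def chd (x y x' y' : ℝ) : ℝ := 1 + ((x - x') ^ 2 + (y - y') ^ 2) / (2 * y * y')

/-- exp of the hyperbolic distance -/
noncomputable def exd (x y x' y' : ℝ) : ℝ := chd x y x' y' + √(chd x y x' y' ^ 2 - 1)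

/-- comparison of two positive quadratic forms of determinant one -/
theorem Vg_psd {a b c a' b' c' h s S1 be S2 : ℝ} (ha : 0 < a) (hc : 0 < c)
    (hd : a * c - b ^ 2 = 1) (hd' : a' * c' - b' ^ 2 = 1)
    (hmix : a * c' + c * a' - 2 * b * b' = 2 * h) (hs : 0 ≤ s) (hss : s ^ 2 = h ^ 2 - 1)
    (h1 : 0 ≤ S1) (h2 : 0 ≤ S2) (hbe : be ^ 2 ≤ S1 * S2) :
    a' * S1 + 2 * b' * be + c' * S2 ≤ (h + s) * (a * S1 + 2 * b * be + c * S2) := by
  have k1 : a' - h * a ≤ s * a := by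
    refine (abs_le_of_sq_le_sq' ?_ (mul_nonneg hs ha.le)).2
    have e : (a' - h * a) ^ 2 = (s * a) ^ 2 - (a * b' - a' * b) ^ 2 := by
      have e1 : (a' - h * a) ^ 2 - (s * a) ^ 2 = a' ^ 2 - (2 * h) * a * a' + (h ^ 2 - s ^ 2) * a ^ 2 := by
        ring
      have e2 : h ^ 2 - s ^ 2 = 1 := by linarith
      rw [e2, ← hmix] at e1
      have e3 : a' ^ 2 - (a * c' + c * a' - 2 * b * b') * a * a' + 1 * a ^ 2 =
          a' ^ 2 * (1 - (a * c - b ^ 2)) + a ^ 2 * (1 - (a' * c' - b' ^ 2)) -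
            (a * b' - a' * b) ^ 2 := by
        ring
      rw [e3, hd, hd'] at e1
      linarith
    rw [e]
    linarith [sq_nonneg (a * b' - a' * b)]
  have k2 : c' - h * c ≤ s * c := by
    refine (abs_le_of_sq_le_sq' ?_ (mul_nonneg hs hc.le)).2
    have e : (c' - h * c) ^ 2 = (s * c) ^ 2 - (c * b' - c' * b) ^ 2 := by
      have e1 : (c' - h * c) ^ 2 - (s * c) ^ 2 = c' ^ 2 - (2 * h) * c * c' + (h ^ 2 - s ^ 2) * c ^ 2 := by
        ring
      have e2 : h ^ 2 - s ^ 2 = 1 := by linarith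
      rw [e2, ← hmix] at e1
      have e3 : c' ^ 2 - (a * c' + c * a' - 2 * b * b') * c * c' + 1 * c ^ 2 =
          c' ^ 2 * (1 - (a * c - b ^ 2)) + c ^ 2 * (1 - (a' * c' - b' ^ 2)) -
            (c * b' - c' * b) ^ 2 := by
        ring
      rw [e3, hd, hd'] at e1
      linarith
    rw [e]
    linarith [sq_nonneg (c * b' - c' * b)]
  obtain ⟨n1, hn1⟩ : ∃ n, n = (h + s) * a - a' := ⟨_, rfl⟩
  obtain ⟨n2, hn2⟩ : ∃ n, n = (h + s) * c - c' := ⟨_, rfl⟩
  obtain ⟨n, hn⟩ : ∃ n, n = (h + s) * b - b' := ⟨_, rfl⟩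
  have p1 : 0 ≤ n1 := by rw [hn1]; linarith
  have p2 : 0 ≤ n2 := by rw [hn2]; linarith
  have hdet : n1 * n2 = n ^ 2 := by
    have e : n1 * n2 - n ^ 2 = (h + s) ^ 2 * (a * c - b ^ 2) -
        (h + s) * (a * c' + c * a' - 2 * b * b') + (a' * c' - b' ^ 2) := by
      rw [hn1, hn2, hn]
      ring
    rw [hd, hd', hmix] at e
    have e2 : (h + s) ^ 2 * 1 - (h + s) * (2 * h) + 1 = s ^ 2 - (h ^ 2 - 1) := by ring
    rw [e2, hss] at e
    linarith
  have hfin : 0 ≤ n1 * S1 + 2 * n * be + n2 * S2 := by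
    have hsq : (2 * n * be) ^ 2 ≤ (n1 * S1 + n2 * S2) ^ 2 := by
      have e1 : (2 * n * be) ^ 2 = 4 * (n ^ 2 * be ^ 2) := by ring
      have e2 : n ^ 2 * be ^ 2 ≤ n ^ 2 * (S1 * S2) := mul_le_mul_of_nonneg_left hbe (sq_nonneg n)
      have e3 : n ^ 2 * (S1 * S2) = (n1 * S1) * (n2 * S2) := by rw [← hdet]; ring
      have e4 : 4 * ((n1 * S1) * (n2 * S2)) ≤ (n1 * S1 + n2 * S2) ^ 2 := by
        nlinarith [sq_nonneg (n1 * S1 - n2 * S2)]
      rw [e1]
      linarith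
    have h3 := (abs_le_of_sq_le_sq' hsq (by positivity)).1
    linarith
  have e : (h + s) * (a * S1 + 2 * b * be + c * S2) - (a' * S1 + 2 * b' * be + c' * S2) =
      n1 * S1 + 2 * n * be + n2 * S2 := by
    rw [hn1, hn2, hn]
    ring
  linarith

theorem Vg_chd_one {x y x' y' : ℝ} (hy : 0 < y) (hy' : 0 < y') : 1 ≤ chd x y x' y' := by
  unfold chd
  have : 0 ≤ ((x - x') ^ 2 + (y - y') ^ 2) / (2 * y * y') := by positivity
  linarith

theorem Vg_exd_one {x y x' y' : ℝ} (hy : 0 < y) (hy' : 0 < y') : 1 ≤ exd x y x' y' := by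
  unfold exd
  have h1 := Vg_chd_one (x := x) (x' := x') hy hy'
  have h2 := Real.sqrt_nonneg (chd x y x' y' ^ 2 - 1)
  linarith

/-- the energy density in terms of the standard frame -/
theorem Vg_e2 {f : ℝ × ℝ → X} {z : ℝ × ℝ} {be : ℝ}
    (h : ∀ a b : ℝ, sp f (a, b) z ^ 2 = a ^ 2 * sp f (1, 0) z ^ 2 + 2 * a * b * be +
      b ^ 2 * sp f (0, 1) z ^ 2) (x : ℝ) {y : ℝ} (hy : 0 < y) :
    e2 x y f z = (x ^ 2 + y ^ 2) / y * sp f (1, 0) z ^ 2 + 2 * (-x / y) * be +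
      1 / y * sp f (0, 1) z ^ 2 := by
  have hsy : Real.sqrt y ^ 2 = y := Real.sq_sqrt hy.le
  have hsy0 : Real.sqrt y ≠ 0 := (Real.sqrt_pos.2 hy).ne'
  unfold e2 f1 f2
  rw [h (Real.sqrt y) 0, h (-x / Real.sqrt y) (1 / Real.sqrt y), div_pow, div_pow, hsy]
  have e3 : 2 * (-x / Real.sqrt y) * (1 / Real.sqrt y) * be = - (2 * x * be) / y := by
    rw [show y = Real.sqrt y ^ 2 from hsy.symm, Real.sqrt_sq (Real.sqrt_nonneg y)]
    field_simp
  rw [e3]
  field_simp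
  ring

theorem e2_log (hX : Npc X gm) {f : ℝ × ℝ → X} (hf : Lpo f U) {x y x' y' : ℝ} (hy : 0 < y) (hy' : 0 < y') :
    ∀ᵐ z ∂(volume : Measure (ℝ × ℝ)), z ∈ U → e2 x' y' f z ≤ exd x y x' y' * e2 x y f z := by
  filter_upwards [md_ae volume hX U_open hf] with z hz hzU
  obtain ⟨be, hb, hq⟩ := sp_pair (hz hzU)
  rw [Vg_e2 hq x' hy', Vg_e2 hq x hy]
  have hyy : 0 < y * y' := mul_pos hy hy'
  have h1 := Vg_chd_one (x := x) (x' := x') hy hy'
  refine Vg_psd (h := chd x y x' y') (s := √(chd x y x' y' ^ 2 - 1)) (by positivity)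
    (by positivity) ?_ ?_ ?_ (Real.sqrt_nonneg _) (Real.sq_sqrt (by nlinarith)) (sq_nonneg _)
    (sq_nonneg _) ?_
  · field_simp
    ring
  · field_simp
    ring
  · unfold chd
    field_simp
    ring
  · rw [← mul_pow]
    exact sq_le_sq' (by linarith [neg_abs_le be]) ((le_abs_self be).trans hb)

theorem ex_log (hX : Npc X gm) {f : ℝ × ℝ → X} (hf : Clx A B C f) {x y x' y' : ℝ} (hy : 0 < y) (hy' : 0 < y') :
    Ex x' y' f ≤ exd x y x' y' * Ex x y f := by
  have hl : Lpo f U := lpo_mono U_sub hf.lip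
  have h1 : ∫ z in U, e2 x' y' f z ≤ ∫ z in U, exd x y x' y' * e2 x y f z := by
    refine integral_mono_ae (e2_int hX hl hf.fin x' y')
      ((e2_int hX hl hf.fin x y).const_mul _) ?_
    filter_upwards [ae_restrict_of_ae (e2_log hX hl (x := x) (x' := x') hy hy'),
      ae_restrict_mem U_open.measurableSet] with z hz hzU
    exact hz hzU
  rw [integral_const_mul] at h1
  exact h1

theorem E0_log (hX : Npc X gm) (r : ℝ) (o : X) {x y x' y' : ℝ} (hy : 0 < y) (hy' : 0 < y') :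
    E0 A B C r o x' y' ≤ exd x y x' y' * E0 A B C r o x y := by
  have hL : 0 < exd x y x' y' := lt_of_lt_of_le one_pos (Vg_exd_one hy hy')
  by_cases hne : ∃ f, Cl0 A B C r o f
  · have h1 : E0 A B C r o x' y' / exd x y x' y' ≤ E0 A B C r o x y := by
      obtain ⟨f0, hf0⟩ := hne
      have hne : {e | ∃ f, Cl0 A B C r o f ∧ e = Ex x y f}.Nonempty := ⟨Ex x y f0, f0, hf0, rfl⟩
      refine le_csInf hne ?_
      rintro e ⟨f, hf, rfl⟩
      rw [div_le_iff₀' hL]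
      exact (E0_le hf x' y').trans (ex_log hX hf.cl hy hy')
    rwa [div_le_iff₀' hL] at h1
  · have e1 : ∀ x y : ℝ, {e | ∃ f, Cl0 A B C r o f ∧ e = Ex x y f} = ∅ := by
      intro x y
      rw [eq_empty_iff_forall_notMem]
      rintro e ⟨f, hf, -⟩
      exact hne ⟨f, hf⟩
    have e2 : ∀ x y : ℝ, E0 A B C r o x y = 0 := by
      intro x y
      have : E0 A B C r o x y = sInf {e | ∃ f, Cl0 A B C r o f ∧ e = Ex x y f} := rfl
      rw [this, e1, Real.sInf_empty]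
    rw [e2, e2, mul_zero]

theorem EX_log (hX : Npc X gm) {x y x' y' : ℝ} (hy : 0 < y) (hy' : 0 < y') :
    EX A B C x' y' ≤ exd x y x' y' * EX A B C x y := by
  have hL : 0 < exd x y x' y' := lt_of_lt_of_le one_pos (Vg_exd_one hy hy')
  by_cases hne : ∃ f, Clx A B C f
  · have h1 : EX A B C x' y' / exd x y x' y' ≤ EX A B C x y := by
      obtain ⟨f0, hf0⟩ := hne
      have hne : {e | ∃ f, Clx A B C f ∧ e = Ex x y f}.Nonempty := ⟨Ex x y f0, f0, hf0, rfl⟩
      refine le_csInf hne ?_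
      rintro e ⟨f, hf, rfl⟩
      rw [div_le_iff₀' hL]
      exact (EX_le hf x' y').trans (ex_log hX hf hy hy')
    rwa [div_le_iff₀' hL] at h1
  · have e1 : ∀ x y : ℝ, {e | ∃ f, Clx A B C f ∧ e = Ex x y f} = ∅ := by
      intro x y
      rw [eq_empty_iff_forall_notMem]
      rintro e ⟨f, hf, -⟩
      exact hne ⟨f, hf⟩
    have e2 : ∀ x y : ℝ, EX A B C x y = 0 := by
      intro x y
      have : EX A B C x y = sInf {e | ∃ f, Clx A B C f ∧ e = Ex x y f} := rfl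
      rw [this, e1, Real.sInf_empty]
    rw [e2, e2, mul_zero]

theorem exd_symm (x y x' y' : ℝ) : exd x y x' y' = exd x' y' x y := by
  have h : chd x y x' y' = chd x' y' x y := by
    unfold chd
    have e1 : (x - x') ^ 2 + (y - y') ^ 2 = (x' - x) ^ 2 + (y' - y) ^ 2 := by ring
    have e2 : 2 * y * y' = 2 * y' * y := by ring
    rw [e1, e2]
  unfold exd
  rw [h]

theorem exd_lim {x y : ℝ} (hy : 0 < y) :
    Tendsto (fun p : ℝ × ℝ => exd x y p.1 p.2) (𝓝 (x, y)) (𝓝 1) := by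
  have h1 : ContinuousAt (fun p : ℝ × ℝ => chd x y p.1 p.2) (x, y) := by
    unfold chd
    refine continuousAt_const.add (ContinuousAt.div (by fun_prop) (by fun_prop) ?_)
    show 2 * y * y ≠ 0
    positivity
  have h2 : ContinuousAt (fun p : ℝ × ℝ => exd x y p.1 p.2) (x, y) := by
    unfold exd
    exact h1.add ((h1.pow 2).sub continuousAt_const).sqrt
  have h3 : exd x y x y = 1 := by
    unfold exd chd
    simp
  have h4 : Tendsto (fun p : ℝ × ℝ => exd x y p.1 p.2) (𝓝 (x, y)) (𝓝 (exd x y x y)) := h2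
  rwa [h3] at h4

theorem Vg_cont {F : ℝ × ℝ → ℝ} (h : ∀ x y x' y' : ℝ, 0 < y → 0 < y' →
    F (x', y') ≤ exd x y x' y' * F (x, y)) : ContinuousOn F {p | 0 < p.2} := by
  rintro ⟨x, y⟩ hy
  have hy : 0 < y := hy
  have hlim : Tendsto (fun p : ℝ × ℝ => exd x y p.1 p.2) (𝓝[{p | 0 < p.2}] (x, y)) (𝓝 1) :=
    (exd_lim hy).mono_left nhdsWithin_le_nhds
  have h1 : Tendsto (fun p : ℝ × ℝ => (exd x y p.1 p.2)⁻¹ * F (x, y)) (𝓝[{p | 0 < p.2}] (x, y))
      (𝓝 (F (x, y))) := by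
    have := (hlim.inv₀ one_ne_zero).mul_const (F (x, y))
    simpa using this
  have h2 : Tendsto (fun p : ℝ × ℝ => exd x y p.1 p.2 * F (x, y)) (𝓝[{p | 0 < p.2}] (x, y))
      (𝓝 (F (x, y))) := by
    have := hlim.mul_const (F (x, y))
    simpa using this
  refine tendsto_of_tendsto_of_tendsto_of_le_of_le' h1 h2 ?_ ?_
  · filter_upwards [self_mem_nhdsWithin] with p hp
    have hp : 0 < p.2 := hp
    have h3 := h p.1 p.2 x y hp hy
    rw [exd_symm] at h3
    have h4 : 0 < exd x y p.1 p.2 := lt_of_lt_of_le one_pos (Vg_exd_one hy hp)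
    rw [inv_mul_le_iff₀ h4]
    exact h3
  · filter_upwards [self_mem_nhdsWithin] with p hp
    exact h x y p.1 p.2 hy hp

theorem E0_cont (hX : Npc X gm) (r : ℝ) (o : X) :
    ContinuousOn (fun p : ℝ × ℝ => E0 A B C r o p.1 p.2) {p | 0 < p.2} := by
  exact Vg_cont (F := fun p : ℝ × ℝ => E0 A B C r o p.1 p.2)
    (fun x y x' y' hy hy' => E0_log hX r o hy hy')

theorem EX_cont (hX : Npc X gm) : ContinuousOn (fun p : ℝ × ℝ => EX A B C p.1 p.2) {p | 0 < p.2} := by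
  exact Vg_cont (F := fun p : ℝ × ℝ => EX A B C p.1 p.2)
    (fun x y x' y' hy hy' => EX_log hX hy hy')

end H46XB
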